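import Pool.Agent.Helper28.Sus.Goals2
import Pool.Agent.Helper78.Gen2.Main
import Pool.Agent.Helper28.Few.Main

/-!
# Sustained space: the final theorem from its parts
-/

namespace Pool.Agent.Helper28.Sus

open Pool.Agent.Helper65.LinSpace Pool.Agent.Helper78.Mpc Pool.Agent.Helper28.Ram Finset Filter
open Pool.Agent.Helper28.Long (ZL ev_par)
open Pool.Agent.Helper81.Tok3 (gH CH Par LSM Sim)

/-! ### The machine -/

/-- The machine on numbers with the parameters of the simulation. -/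
def mach (P : Prm) (g h c d Y τ a : ℕ) : Pool.Agent.Helper81.Tok3.Mach where
  σ := P.V + 1
  a := P.Z + 1
  b := g / (P.V + 1)
  G := g
  h := h
  A := P.wA τ a
  N := P.wN τ Y d a
  Q := P.wQ
  W := P.wW
  q0 := P.w0 c
  M0 := P.cm c

/-- The conditions for the simulation. -/
structure Adm (n h : ℕ) (P : Prm) : Prop where
  h1 : P.V + 1 ≤ gH n h
  h2 : (P.V + 2) * h ≤ gH n h
  h3 : P.Z + 1 ≤ gH n h * gH n h

theorem ok_mach {n h : ℕ} {P : Prm} (hP : Adm n h P) (c d Y τ a : ℕ) :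
    (mach P (gH n h) h c d Y τ a).Ok := by
  refine ⟨Nat.succ_pos _, Nat.div_pos hP.h1 (Nat.succ_pos _), ?_, ?_, ?_, ?_, ?_⟩
  · intro q
    exact capN_lt _ _
  · intro q v
    exact capN_lt _ _
  · intro q v f
    exact capN_lt _ _
  · exact capN_lt _ _
  · intro a
    exact capN_lt _ _

theorem par_mach {n h : ℕ} {P : Prm} (hP : Adm n h P) (c d Y τ a : ℕ) :
    Par n (mach P (gH n h) h c d Y τ a) :=
  ⟨hP.h1, hP.h2, rfl, rfl, hP.h3⟩

/-- The simulation. -/
noncomputable def FF (Q : Sim) (n h : ℕ) (P : Prm) (c d Y τ a : ℕ) : ℕ :=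
  Q.sim n (mach P (gH n h) h c d Y τ a)

theorem FF_eq (Q : Sim) {n h : ℕ} {P : Prm} (hP : Adm n h P) (c d Y τ a : ℕ) :
    FF Q n h P c d Y τ a = (mgf (P.wA τ a) (P.wN τ Y d a) P.wQ P.wW h (P.w0 c) (P.cm c)
      (gH n h * (gH n h * (gH n h / (P.V + 1))))).1 :=
  Q.eq _ _ (ok_mach hP _ _ _ _ _) (par_mach hP _ _ _ _ _)

theorem FF_sound (Q : Sim) (hSIL : SIL_stmt) {n h : ℕ} {P : Prm} (hP : Adm n h P)
    {c d Y τ a : ℕ} (hF : FF Q n h P c d Y τ a = 1) : ∃ T, (P.wf τ Y c d a T).1 = 1 := by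
  rw [FF_eq Q hP] at hF
  obtain ⟨t, ht⟩ := macro_sound (A := P.wA τ a) (N := P.wN τ Y d a) (W := P.wW) (Q := P.wQ)
    (q := P.w0 c) (M := P.cm c) (hSIL P τ Y c d a).1 h
    (gH n h * (gH n h * (gH n h / (P.V + 1))))
  rw [ht] at hF
  exact ⟨t, hF⟩

theorem FF_complete (Q : Sim) (hSIL : SIL_stmt) {n h : ℕ} {P : Prm} (hP : Adm n h P)
    {c d Y τ a x : ℕ} (h1 : ∀ T, τ < T → (P.wf τ Y c d a T).1 = 1) (h2 : τ ≤ 2 ^ h * (x + 1))
    (h3 : chs (P.wA τ a) (P.wN τ Y d a) P.wQ P.wW (P.w0 c) (P.cm c) (τ + 1) ≤ x)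
    (h4 : 2 * (x + 1) + 1 ≤ gH n h * (gH n h * (gH n h / (P.V + 1)))) :
    FF Q n h P c d Y τ a = 1 := by
  rw [FF_eq Q hP]
  have hpos : 1 ≤ 2 ^ h := Nat.one_le_two_pow
  refine macro_complete (A := P.wA τ a) (N := P.wN τ Y d a) (W := P.wW) (Q := P.wQ)
    (q := P.w0 c) (M := P.cm c) (hSIL P τ Y c d a).1 (acc := fun q => q = 1)
    (fun t ht => (hSIL P τ Y c d a).2 t ht) (h := h) (r := τ + 1) (x := x + 1)
    (h1 (τ + 1) (Nat.lt_succ_self τ)) (h3.trans (Nat.le_succ x)) ?_ _ h4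
  calc τ + 1 ≤ 2 ^ h * (x + 1) + 2 ^ h := by omega
    _ = 2 ^ h * (x + 1 + 1) := by ring

/-! ### The simulation of the whole computation -/

/-- The reduced bound `h`. -/
def hT (n T : ℕ) : ℕ := gT n T * dig (n + 2) T 2

/-- The reduced bound `k`. -/
def kT (n T : ℕ) : ℕ := gT n T * dig (n + 2) T 3

/-- The simulation: not `0` if the machine with the code `e` accepts, with the bounds coded by `T`. -/
noncomputable def acc (Q : Sim) (c e x y T : ℕ) : ℕ :=
  gT (Nat.log 2 x) T * (lt01 0 ((prm c e x y T).cq 1) *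
    rc (edge (prm c e x y T) (FF Q (Nat.log 2 x) (hT (Nat.log 2 x) T) (prm c e x y T)))
      (prm c e x y T).cz (kT (Nat.log 2 x) T) 1 0)

/-- The number of codes of bounds. -/
def NF (x : ℕ) : ℕ := (Nat.log 2 x + 2) ^ 5

theorem LS.NF : LS Sus.NF := by
  unfold Sus.NF
  exact (LS.add (LS.log2 (by fun_prop)) (LS.const 2)).pow_const 5

theorem adm_prm (hPRM : PRM_stmt) (c e x y T : ℕ) :
    Adm (Nat.log 2 x) (hT (Nat.log 2 x) T) (prm c e x y T) := by
  obtain ⟨h1, h2, h3, _⟩ := hPRM.2.2 c e x y T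
  exact ⟨h1, h2, h3⟩

theorem LS.acc (Q : Sim) (hLSW : LSW_stmt) (hLSE : LSE_stmt) (hPRM : PRM_stmt) (c : ℕ) :
    LS (fun z : ℕ × ℕ × ℕ × ℕ => acc Q c z.1 z.2.1 z.2.2.1 z.2.2.2) := by
  have he : LS (fun z : ℕ × ℕ × ℕ × ℕ => z.1) := by fun_prop
  have hx : LS (fun z : ℕ × ℕ × ℕ × ℕ => z.2.1) := by fun_prop
  have hy : LS (fun z : ℕ × ℕ × ℕ × ℕ => z.2.2.1) := by fun_prop
  have hT' : LS (fun z : ℕ × ℕ × ℕ × ℕ => z.2.2.2) := by fun_prop
  have hn : LS (fun z : ℕ × ℕ × ℕ × ℕ => Nat.log 2 z.2.1) := by fun_prop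
  obtain ⟨h1, h2, h3⟩ := hPRM.1 _ c _ _ _ _ he hx hy hT'
  have hLh : LS (fun z : ℕ × ℕ × ℕ × ℕ => hT (Nat.log 2 z.2.1) z.2.2.2) := by
    unfold hT
    exact LS.mul h2 (by fun_prop)
  have hLk : LS (fun z : ℕ × ℕ × ℕ × ℕ => kT (Nat.log 2 z.2.1) z.2.2.2) := by
    unfold kT
    exact LS.mul h2 (by fun_prop)
  have hC : LS (fun z : ℕ × ℕ × ℕ × ℕ => CS c z.2.1) := h1.hC
  -- the simulation
  have hF : LS (fun z : (ℕ × ℕ × ℕ × ℕ) × ℕ × ℕ × ℕ × ℕ × ℕ =>
      FF Q (Nat.log 2 z.1.2.1) (hT (Nat.log 2 z.1.2.1) z.1.2.2.2)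
        (prm c z.1.1 z.1.2.1 z.1.2.2.1 z.1.2.2.2) z.2.1 z.2.2.1 z.2.2.2.1 z.2.2.2.2.1
        z.2.2.2.2.2) := by
    have he' : LS (fun z : (ℕ × ℕ × ℕ × ℕ) × ℕ × ℕ × ℕ × ℕ × ℕ => z.1.1) := by fun_prop
    have hx' : LS (fun z : (ℕ × ℕ × ℕ × ℕ) × ℕ × ℕ × ℕ × ℕ × ℕ => z.1.2.1) := by fun_prop
    have hy' : LS (fun z : (ℕ × ℕ × ℕ × ℕ) × ℕ × ℕ × ℕ × ℕ × ℕ => z.1.2.2.1) := by fun_prop
    have hT' : LS (fun z : (ℕ × ℕ × ℕ × ℕ) × ℕ × ℕ × ℕ × ℕ × ℕ => z.1.2.2.2) := by fun_prop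
    obtain ⟨g1, g2, g3⟩ := hPRM.1 _ c _ _ _ _ he' hx' hy' hT'
    obtain ⟨w1, w2, w3, w4, w5, w6, _⟩ := hLSW _ _ _
      (fun z : (ℕ × ℕ × ℕ × ℕ) × ℕ × ℕ × ℕ × ℕ × ℕ => z.2.1)
      (fun z => z.2.2.1) (fun z => z.2.2.2.1) (fun z => z.2.2.2.2.1) (fun z => z.2.2.2.2.2)
      g1 (by fun_prop) (by fun_prop) (by fun_prop) (by fun_prop) (by fun_prop)
    have hLh' : LS (fun z : (ℕ × ℕ × ℕ × ℕ) × ℕ × ℕ × ℕ × ℕ × ℕ =>
        hT (Nat.log 2 z.1.2.1) z.1.2.2.2) := by
      unfold hT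
      exact LS.mul g2 (by fun_prop)
    have hCH : LS (fun z : (ℕ × ℕ × ℕ × ℕ) × ℕ × ℕ × ℕ × ℕ × ℕ => CH z.1.2.1) := by
      unfold CH
      exact (LS.add hx' (LS.const 2)).pow_const 40000
    refine Q.ls hx' ?_ (fun z => par_mach (adm_prm hPRM _ _ _ _ _) _ _ _ _ _)
    exact ⟨LS.add g1.V (LS.const 1), LS.add g1.Z (LS.const 1),
      LS.div g3 (LS.add g1.V (LS.const 1)), g3, hLh', w1, w2, w3, w4, w5, w6, hCH,
      fun z => ok_mach (adm_prm hPRM _ _ _ _ _) _ _ _ _ _,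
      fun z => Q.nv _ _ (ok_mach (adm_prm hPRM _ _ _ _ _) _ _ _ _ _)
        (par_mach (adm_prm hPRM _ _ _ _ _) _ _ _ _ _),
      fun z => Q.sv _ _ (ok_mach (adm_prm hPRM _ _ _ _ _) _ _ _ _ _)
        (par_mach (adm_prm hPRM _ _ _ _ _) _ _ _ _ _)⟩
  have hE := hLSE _ _ _ h1 (fun z : ℕ × ℕ × ℕ × ℕ => FF Q (Nat.log 2 z.2.1)
    (hT (Nat.log 2 z.2.1) z.2.2.2) (prm c z.1 z.2.1 z.2.2.1 z.2.2.2)) hF
  obtain ⟨_, _, _, _, _, _, w7⟩ := hLSW _ _ _
      (fun z : ℕ × ℕ × ℕ × ℕ => 0) (fun z => 0) (fun z => 0) (fun z => 0) (fun z => 0)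
      h1 (by fun_prop) (by fun_prop) (by fun_prop) (by fun_prop) (by fun_prop)
  have hq : LS (fun z : ℕ × ℕ × ℕ × ℕ => (prm c z.1 z.2.1 z.2.2.1 z.2.2.2).cq 1) := by
    refine LS.congr (LS.capN h1.S h1.st) fun z => ?_
    unfold Prm.cq
    rw [eq01, if_pos rfl, ifz_ne one_ne_zero]
  exact LS.mul h2 (LS.mul (LS.lt01 (LS.const 0) hq)
    (LS.rc hE w7 hLk (LS.const 1) (LS.const 0) hC (fun z => hPRM.2.1 c _ _ _ _)
      (fun z => by omega) (fun z => by omega)))

/-! ### Codes -/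

theorem exists_cdeN (e : Cde) : ∃ N, cdeN N = e := by
  obtain ⟨eA, eN, eW, eK, eG, eR, ini, B0, st⟩ := e
  set B := eA + eN + eW + eK + eG + eR + ini + B0 + st + 1 with hB
  set f : ℕ → ℕ := fun i => if i = 0 then eA else if i = 1 then eN else if i = 2 then eW else
    if i = 3 then eK else if i = 4 then eG else if i = 5 then eR else if i = 6 then ini else
    if i = 7 then B0 else st with hf
  have hlt : ∀ i < 9, f i < B := by
    intro i _
    simp only [hf]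
    split_ifs <;> omega
  refine ⟨Nat.pair B (tab B 9 f), ?_⟩
  unfold cdeN
  simp only [Nat.unpair_pair]
  rw [dig_tab hlt (show 0 < 9 by omega), dig_tab hlt (show 1 < 9 by omega),
    dig_tab hlt (show 2 < 9 by omega), dig_tab hlt (show 3 < 9 by omega),
    dig_tab hlt (show 4 < 9 by omega), dig_tab hlt (show 5 < 9 by omega),
    dig_tab hlt (show 6 < 9 by omega), dig_tab hlt (show 7 < 9 by omega),
    dig_tab hlt (show 8 < 9 by omega)]
  simp [hf]

theorem ev_cod (c : ℕ) : ∀ᶠ n : ℕ in atTop, ∀ S < gR n, ∀ Z ≤ ZL n,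
    c * (8 * S + 8 * Z + 8) ≤ LW n ∧ c + LW n + 8 * S + 8 * Z + 8 ≤ 2 ^ (2 * ll n) ∧
      ∀ x, Nat.log 2 x = n → 2 ^ (S + 2) ≤ CR x ∧ 2 ^ (Z + 2) ≤ CR x := by
  filter_upwards [ev_par (2 * c), eventually_ge_atTop (c + 30)] with n h1 h2 S hS Z hZ
  obtain ⟨h4, h5, h6⟩ := h1 S hS Z hZ
  have h8 := Pool.Agent.Helper28.Long.ZL_le n
  have h9 : LW n ≤ n := Nat.div_le_self _ _
  have h10 := Pool.Agent.Helper69.Ram.gR_le n
  refine ⟨?_, ?_, fun x hx => ⟨Pool.Agent.Helper28.Long.pow_le_CR ?_,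
    Pool.Agent.Helper28.Long.pow_le_CR ?_⟩⟩
  · have h9 : 2 * c * (4 * S + 4 * Z + 4) = c * (8 * S + 8 * Z + 8) := by ring
    omega
  · have hl2 := lt_two_pow_ll n
    have h7 : (n + 1) * (n + 1) ≤ 2 ^ (2 * ll n) := by
      rw [two_mul, pow_add]
      exact Nat.mul_le_mul hl2 hl2
    refine le_trans ?_ h7
    nlinarith
  · rw [hx]
    omega
  · rw [hx]
    omega

/-! ### Soundness and completeness -/

theorem rep_start {A : NBM} {w y : List Bool} {P : Prm} (hP : Cod A w y P) (h : P.cq 1 ≠ 0) :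
    Rep A w y P 1 (A.start, A.mem0 w y) := by
  have e1 : P.cq 1 = capN P.S (num A.start) := by
    unfold Prm.cq
    rw [eq01, if_pos rfl, ifz_ne one_ne_zero, hP.hst]
  refine Or.inr ⟨one_ne_zero, ?_, ?_, fun i _ => rfl, fun i _ hi => Or.inr ?_⟩
  · rw [e1] at h ⊢
    exact (capN_ne h).symm
  · rw [e1] at h
    exact Pool.Agent.Helper11.Ram.capN_num_le h
  · have e2 : P.cl 1 (num i) = 1 := by
      unfold Prm.cl
      rw [eq01, if_pos rfl, ifz_ne one_ne_zero]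
    have e3 : A.mem0 w y i = [] := by
      rcases i with _ | ⟨b, i⟩
      · rfl
      · cases b
        · exact absurd rfl hi
        · rfl
    rw [e2]
    show 1 = num (A.mem0 w y i)
    rw [e3]
    rfl

theorem gd_le (n S Z h k z : ℕ) : gd n S Z h k z ≤ 1 := by
  have h : ∀ x y : ℕ, le01 x y ≤ 1 := fun x y => by
    unfold le01
    split_ifs <;> omega
  have h2 : ∀ a b : ℕ, a ≤ 1 → b ≤ 1 → a * b ≤ 1 := fun a b ha hb => by
    have := Nat.mul_le_mul ha hb
    omega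
  unfold gd
  exact h2 _ _ (h _ _) (h2 _ _ (h _ _) (h2 _ _ (h _ _) (h2 _ _ (h _ _) (h _ _))))

theorem sound (Q : Sim) (hSIL : SIL_stmt) (hEDS : EDS_stmt) (hRCS : RCS_stmt)
    (hPRM : PRM_stmt) {A : NBM} {w y : List Bool} {c e T : ℕ}
    (hP : Cod A w y (prm c e (num w) (num y) T)) (h : acc Q c e (num w) (num y) T ≠ 0) :
    ∃ g r, A.AcceptsAt w y g r := by
  unfold acc at h
  have h1 := right_ne_zero_of_mul h
  have h2 := left_ne_zero_of_mul h1
  have h3 := right_ne_zero_of_mul h1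
  have h4 : (prm c e (num w) (num y) T).cq 1 ≠ 0 := lt_ne.1 h2
  have h5 := (hPRM.2.2 c e (num w) (num y) T).2.2.2.1
  obtain ⟨g, t, ht⟩ := hRCS A (Rep A w y (prm c e (num w) (num y) T)) _ _
    (hEDS A w y _ hP h5 (FF Q _ _ _) fun c' d Y τ a _ _ hF =>
      FF_sound Q hSIL (adm_prm hPRM c e (num w) (num y) T) hF) _ _ _ _ h3
    (rep_start hP h4)
  rcases ht with ⟨_, ht⟩ | ⟨h6, _⟩
  · exact ⟨g, t, ht⟩
  · exact absurd rfl h6

theorem sum_div_le {ι : Type*} (s : Finset ι) (f : ι → ℕ) (b : ℕ) :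
    ∑ i ∈ s, f i / b ≤ (∑ i ∈ s, f i) / b := by
  classical
  induction s using Finset.induction_on with
  | empty => simp
  | insert a s ha ih =>
    rw [sum_insert ha, sum_insert ha]
    exact (Nat.add_le_add_left ih _).trans Nat.div_add_div_le_add_div

/-- MEM with the hypothesis `0 < P.I`, which is needed if `F` is empty. -/
def MEM2_stmt : Prop := ∀ (P : Prm) (F : Finset (List Bool)) (M : List Bool → List Bool),
    1 ≤ P.b → 0 < P.I →
    (∀ i ∈ F, i.length ≤ P.S ∧ (M i).length ≤ P.Z ∧ (M i).length / P.b < P.I) →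
    ∑ i ∈ F, ((M i).length / P.b + 1) ≤ P.E →
    ∃ D < P.bd ^ P.E, ∀ i : List Bool, P.lk D (num i) = if i ∈ F then num (M i) else 0

/-- The numbers of the configurations between the parts. -/
theorem exists_config (hMEM : MEM2_stmt) {A : NBM} {w y : List Bool} {P : Prm} {g : ℕ → Bool}
    {r t z : ℕ} (hb : 1 ≤ P.b) (hfit : A.Fits w y g r P.S P.Z) (ht : t ≤ r)
    (hI : P.Z < P.I) (hz : z / P.b = P.E) (hl : A.LiveIn w y g r t P.b z) :
    ∃ C < P.cz, 2 ≤ C ∧ Rep A w y P C (A.conf w y g t) ∧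
      ∀ i : List Bool, i.length ≤ P.S → i.head? ≠ some false →
        (P.cl C (num i) ≠ 0 ↔ A.Live w y g r t i) := by
  classical
  obtain ⟨F, hF1, hF2⟩ := hl
  obtain ⟨hq, _, hc⟩ := hfit t ht
  set M := (A.conf w y g t).2 with hM
  set F' : Finset (List Bool) := F.filter fun i => i.length ≤ P.S ∧ i.head? ≠ some false ∧
    A.Live w y g r t i with hF'
  have hmem : ∀ i : List Bool, i.length ≤ P.S → i.head? ≠ some false →
      (i ∈ F' ↔ A.Live w y g r t i) := by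
    intro i hi hr
    rw [hF', mem_filter]
    exact ⟨fun h => h.2.2.2, fun h => ⟨hF1 i hr h, hi, hr, h⟩⟩
  obtain ⟨D, hD, hlk⟩ := hMEM P F' M hb (Nat.zero_lt_of_lt hI)
    (fun i hi => by
      rw [hF', mem_filter] at hi
      refine ⟨hi.2.1, hc i hi.2.1, ?_⟩
      exact lt_of_le_of_lt (Nat.div_le_self _ _) (lt_of_le_of_lt (hc i hi.2.1) hI))
    (by
      calc ∑ i ∈ F', ((M i).length / P.b + 1) = ∑ i ∈ F', ((M i).length + P.b) / P.b := by
            refine sum_congr rfl fun i _ => ?_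
            rw [Nat.add_div_right _ (by omega)]
        _ ≤ (∑ i ∈ F', ((M i).length + P.b)) / P.b := sum_div_le _ _ _
        _ ≤ z / P.b := Nat.div_le_div_right
            ((sum_le_sum_of_subset (filter_subset _ _)).trans hF2)
        _ = P.E := hz)
  have hqlt : num (A.conf w y g t).1 < 2 ^ (P.S + 1) :=
    lt_of_lt_of_le (Pool.Agent.Helper78.Avg.num_lt _)
      (Nat.pow_le_pow_right (by omega) (by omega))
  set C := 2 + (num (A.conf w y g t).1 + 2 ^ (P.S + 1) * D) with hC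
  have hC1 : C ≠ 1 := by omega
  have e1 : (C - 2) / 2 ^ (P.S + 1) = D := by
    rw [hC, Nat.add_sub_cancel_left, Nat.add_mul_div_left _ _ (by positivity),
      Nat.div_eq_of_lt hqlt, zero_add]
  have e2 : (C - 2) % 2 ^ (P.S + 1) = num (A.conf w y g t).1 := by
    rw [hC, Nat.add_sub_cancel_left, Nat.add_mul_mod_self_left, Nat.mod_eq_of_lt hqlt]
  have hcl : ∀ i : List Bool, i.length ≤ P.S → i.head? ≠ some false →
      P.cl C (num i) = if i ∈ F' then num (M i) else 0 := by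
    intro i hi _
    unfold Prm.cl
    rw [eq01, if_neg hC1, ifz_zero, e1, hlk]
    split_ifs with h
    · exact capN_num (hc i hi)
    · exact Pool.Agent.Helper11.Ram.capN_zero _
  refine ⟨C, ?_, by omega, Or.inr ⟨by omega, ?_, hq, ?_, ?_⟩, ?_⟩
  · unfold Prm.cz
    rw [hC]
    have h1 : num (A.conf w y g t).1 + 2 ^ (P.S + 1) * D < 2 ^ (P.S + 1) * (D + 1) := by
      rw [mul_add, mul_one]
      omega
    have h2 : 2 ^ (P.S + 1) * (D + 1) ≤ 2 ^ (P.S + 1) * P.bd ^ P.E := Nat.mul_le_mul_left _ hD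
    omega
  · unfold Prm.cq
    rw [eq01, if_neg hC1, ifz_zero, e2]
  · intro i hi
    have : ∀ t, (A.conf w y g t).2 i = A.mem0 w y i := by
      intro t
      induction t with
      | zero => rfl
      | succ t ih =>
        show A.upd _ i ((A.conf w y g t).2 i) = _
        rw [ih]
        unfold NBM.upd
        rw [if_neg]
        rintro ⟨_, h⟩
        exact h hi
    exact this t
  · intro i hi hr
    rw [hcl i hi hr]
    split_ifs with h
    · exact Or.inr rfl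
    · exact Or.inl rfl
  · intro i hi hr
    rw [hcl i hi hr, ← hmem i hi hr]
    split_ifs with h
    · exact ⟨fun _ => h, fun _ => (num_pos _).ne'⟩
    · exact ⟨fun h' => absurd rfl h', fun h' => absurd h' h⟩

/-- The bounds of an accepting computation as natural numbers. -/
theorem complete (Q : Sim) (hSIL : SIL_stmt) (hMEM : MEM2_stmt) (hEDC : EDC_stmt)
    (hRCC : RCC_stmt) (hPRM : PRM_stmt) {A : NBM} {w y : List Bool} {c e : ℕ}
    (hCod : ∀ T, Cod A w y (prm c e (num w) (num y) T))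
    {g : ℕ → Bool} {r s a x h z k K : ℕ} {τ : ℕ → ℕ} (hacc : A.AcceptsAt w y g r)
    (hfit : A.Fits w y g r s a) (hτ0 : τ 0 = 0) (hτK : τ K = r) (hK0 : 0 < K) (hK : K ≤ 2 ^ k)
    (hpart : ∀ i < K, τ i ≤ τ (i + 1) ∧ τ (i + 1) ≤ τ i + 2 ^ h * (x + 1) ∧
      A.msgs w y g (τ i) (τ (i + 1)) ≤ x ∧ A.guesses w y g (τ i) (τ (i + 1)) ≤ c * w.length)
    (hlive : ∀ i, 0 < i → i < K →
      A.LiveIn w y g r (τ i) (s + (h + (Nat.log 2 w.length + 1))) z)
    (q1 : gd w.length s a h k z = 1) (q2 : s < w.length + 2) (q3 : a < w.length + 2)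
    (q4 : h < w.length + 2) (q5 : k < w.length + 2) (q6 : z < w.length + 2)
    (q7 : 2 + 2 ^ (s + 1) * ((c * w.length + 1) * (2 ^ h * (x + 1) + 1)) ≤
      2 ^ (s + h + 5 * ll w.length + 1))
    (q8 : 2 ^ h * (x + 1) < 2 ^ (s + h + 5 * ll w.length))
    (q9 : 2 * (x + 1) + 1 ≤ gH w.length h * (gH w.length h *
      (gH w.length h / (s + h + 5 * ll w.length + 1)))) :
    ∃ T < NF (num w), acc Q c e (num w) (num y) T ≠ 0 := by
  set n := w.length with hn
  have hlog : Nat.log 2 (num w) = n := Pool.Agent.Helper65.LinSpace.log_num w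
  set f : ℕ → ℕ := fun i => if i = 0 then s else if i = 1 then a else if i = 2 then h else
    if i = 3 then k else z with hf
  have hlt : ∀ i < 5, f i < n + 2 := by
    intro i _
    simp only [hf]
    split_ifs <;> omega
  set T := tab (n + 2) 5 f with hTd
  have d0 : dig (n + 2) T 0 = s := by
    rw [hTd, dig_tab hlt (by omega)]
    simp [hf]
  have d1 : dig (n + 2) T 1 = a := by
    rw [hTd, dig_tab hlt (by omega)]
    simp [hf]
  have d2 : dig (n + 2) T 2 = h := by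
    rw [hTd, dig_tab hlt (by omega)]
    simp [hf]
  have d3 : dig (n + 2) T 3 = k := by
    rw [hTd, dig_tab hlt (by omega)]
    simp [hf]
  have d4 : dig (n + 2) T 4 = z := by
    rw [hTd, dig_tab hlt (by omega)]
    simp [hf]
  have hgT : gT n T = 1 := by
    unfold gT
    rw [d0, d1, d2, d3, d4, q1]
  have ehT : hT n T = h := by
    unfold Sus.hT
    rw [hgT, d2, one_mul]
  have ekT : kT n T = k := by
    unfold kT
    rw [hgT, d3, one_mul]
  have hP := hCod T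
  have hadm := adm_prm hPRM c e (num w) (num y) T
  have h5 := (hPRM.2.2 c e (num w) (num y) T).2.2.2.1
  have hZL := (hPRM.2.2 c e (num w) (num y) T).2.2.2.2.2
  set P := prm c e (num w) (num y) T with hPdef
  have eS : P.S = s := by
    show gT (Nat.log 2 (num w)) T * dig (Nat.log 2 (num w) + 2) T 0 = s
    rw [hlog, hgT, d0, one_mul]
  have eZ : P.Z = a := by
    show gT (Nat.log 2 (num w)) T * dig (Nat.log 2 (num w) + 2) T 1 = a
    rw [hlog, hgT, d1, one_mul]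
  have eu : P.u = c * n := by
    show c * Nat.log 2 (num w) = c * n
    rw [hlog]
  have eV : P.V = s + h + 5 * ll n := by
    show gT (Nat.log 2 (num w)) T * (dig (Nat.log 2 (num w) + 2) T 0 +
      dig (Nat.log 2 (num w) + 2) T 2 + 5 * ll (Nat.log 2 (num w))) = _
    rw [hlog, hgT, d0, d2, one_mul]
  have eb : P.b = s + (h + (Nat.log 2 n + 1)) := by
    show gT (Nat.log 2 (num w)) T * (dig (Nat.log 2 (num w) + 2) T 0 +
      dig (Nat.log 2 (num w) + 2) T 2) + ll (Nat.log 2 (num w)) = _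
    rw [hlog, hgT, d0, d2, one_mul]
    unfold ll
    omega
  have eI : P.I = 2 ^ ll n := by
    show 2 ^ ll (Nat.log 2 (num w)) = _
    rw [hlog]
  have eE : z / P.b = P.E := by
    show z / P.b = gT (Nat.log 2 (num w)) T * dig (Nat.log 2 (num w) + 2) T 4 / P.b
    rw [hlog, hgT, d4, one_mul]
  rw [hlog, ehT] at hadm
  rw [hlog] at hZL
  have hZI : P.Z < P.I := by
    rw [eI]
    have := Pool.Agent.Helper28.Long.ZL_le n
    have := lt_two_pow_ll n
    omega
  have hmono : ∀ i, ∀ j, i ≤ j → j ≤ K → τ i ≤ τ j := by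
    intro i j hij
    induction j, hij using Nat.le_induction with
    | base => exact fun _ => le_rfl
    | succ j _ ih => exact fun hj => (ih (by omega)).trans (hpart j (by omega)).1
  have hr : ∀ i ≤ K, τ i ≤ r := fun i hi => by
    rw [← hτK]
    exact hmono i K hi le_rfl
  rw [← eS, ← eZ] at hfit
  -- the configurations
  have hex : ∀ i, ∃ C < P.cz, (i = 0 → C = 1) ∧ (i = K → C = 0) ∧ (0 < i → i < K →
      2 ≤ C ∧ Rep A w y P C (A.conf w y g (τ i)) ∧
      ∀ v : List Bool, v.length ≤ P.S → v.head? ≠ some false →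
        (P.cl C (num v) ≠ 0 ↔ A.Live w y g r (τ i) v)) := by
    intro i
    have hcz : 2 ≤ P.cz := by
      unfold Prm.cz
      omega
    have hcz1 : 1 < P.cz := by omega
    rcases Nat.eq_zero_or_pos i with h0 | h0
    · exact ⟨1, hcz1, fun _ => rfl, fun h => by omega, fun h => by omega⟩
    · rcases Nat.lt_or_ge i K with h1 | h1
      · obtain ⟨C, hC, hC2, hC3, hC4⟩ := exists_config hMEM (A := A) (w := w) (y := y) (P := P)
          (g := g) (r := r) (t := τ i) (z := z) (by rw [eb]; omega) hfit (hr i h1.le) hZI eE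
          (by rw [eb]; exact hlive i h0 h1)
        exact ⟨C, hC, fun h => by omega, fun h => by omega, fun _ _ => ⟨hC2, hC3, hC4⟩⟩
      · exact ⟨0, by omega, fun h => by omega, fun _ => rfl, fun _ h => by omega⟩
  choose C hC1 hC2 hC3 hC4 using hex
  have hstart : A.start.length ≤ P.S := (hfit 0 (Nat.zero_le _)).1
  have hcq : P.cq 1 ≠ 0 := by
    unfold Prm.cq
    rw [eq01, if_pos rfl, ifz_ne one_ne_zero, hP.hst, capN_num hstart]
    exact (num_pos _).ne'
  have hedge : ∀ i < K, edge P (FF Q n h P) (C i) (C (i + 1)) ≠ 0 := by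
    intro i hi
    obtain ⟨p1, p2, p3, p4⟩ := hpart i hi
    have hd : τ (i + 1) - τ i ≤ 2 ^ h * (x + 1) := by omega
    have hCi : C i ≠ 0 := by
      rcases Nat.eq_zero_or_pos i with h0 | h0
      · rw [hC2 i h0]
        exact one_ne_zero
      · have := (hC4 i h0 hi).1
        omega
    refine hEDC A w y P hP h5 (FF Q n h P) x g r (τ i) (τ (i + 1)) (C i) (C (i + 1)) ?_ p1
      (hr _ (by omega)) hfit p3 (by rw [eu]; exact p4) ?_ ?_ hCi ?_ ?_ ?_ ?_
    · intro c' d' Y τ' a' _ _ hT' hτ' hch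
      refine FF_complete Q hSIL hadm hT' (hτ'.trans hd) hch ?_
      rw [eV]
      exact q9
    · rw [eS, eu, eV]
      refine le_trans ?_ q7
      gcongr
    · rw [eV]
      exact lt_of_le_of_lt hd q8
    · rcases Nat.eq_zero_or_pos i with h0 | h0
      · rw [hC2 i h0, h0, hτ0]
        exact rep_start hP hcq
      · exact (hC4 i h0 hi).2.1
    · intro v hv hv2 hl
      rcases Nat.eq_zero_or_pos i with h0 | h0
      · rw [hC2 i h0]
        unfold Prm.cl
        rw [eq01, if_pos rfl, ifz_ne one_ne_zero]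
        exact one_ne_zero
      · exact ((hC4 i h0 hi).2.2 v hv hv2).2 hl
    · intro h0
      have : i + 1 = K := by
        by_contra hne
        have := (hC4 (i + 1) (Nat.succ_pos i) (by omega)).1
        omega
      rw [this]
      exact ⟨hτK, hacc⟩
    · intro h0
      have h1 : i + 1 < K := by
        rcases Nat.lt_or_ge (i + 1) K with h1 | h1
        · exact h1
        · exact absurd (hC3 (i + 1) (by omega)) h0
      obtain ⟨g1, g2, g3⟩ := hC4 (i + 1) (Nat.succ_pos i) h1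
      exact ⟨by omega, g2, fun v hv hv2 hne => (g3 v hv hv2).1 hne⟩
  have hrc := hRCC (edge P (FF Q n h P)) P.cz k (fun c' => by
      unfold edge
      rw [eq01, if_pos rfl]
      omega) K C hK (fun i _ => hC1 i) hedge
  rw [hC2 0 rfl, hC3 K rfl] at hrc
  refine ⟨T, ?_, ?_⟩
  · unfold NF
    rw [hlog]
    exact tab_lt hlt
  · unfold acc
    rw [hlog, ehT, ekT, hgT, one_mul]
    exact mul_ne_zero (lt_ne.2 hcq) hrc

/-- The parts of the proof. -/
structure Parts : Prop where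
  cod : COD_stmt
  snd : SND_stmt
  cmp : CMP_stmt
  sil : SIL_stmt
  mem : MEM2_stmt
  eds : EDS_stmt
  rcs : RCS_stmt
  rcc : RCC_stmt
  edc : EDC_stmt
  lsw : LSW_stmt
  lse : LSE_stmt
  prm : PRM_stmt
  par : PAR_stmt

theorem exists_good (Q : Sim) (H : Parts) (c : ℕ) (A : NBM) (C : ℝ) : ∃ e n₀ : ℕ,
    ∀ w y : List Bool, n₀ ≤ w.length →
    (∀ T < NF (num w), acc Q c e (num w) (num y) T ≠ 0 → ∃ g r, A.AcceptsAt w y g r) ∧
    (A.Within c C w y → ∃ T < NF (num w), acc Q c e (num w) (num y) T ≠ 0) := by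
  obtain ⟨cd, c₀, hcd⟩ := H.cod A
  obtain ⟨e, he⟩ := exists_cdeN cd
  obtain ⟨n₀, hn₀⟩ := eventually_atTop.1 (ev_cod c₀)
  obtain ⟨n₁, hn₁⟩ := eventually_atTop.1 (H.par C c)
  refine ⟨e, n₀ + n₁, fun w y hw => ?_⟩
  have hlog : Nat.log 2 (num w) = w.length := Pool.Agent.Helper65.LinSpace.log_num w
  have hCod : ∀ T, Cod A w y (Sus.prm c e (num w) (num y) T) := by
    intro T
    obtain ⟨_, _, _, _, h5, h6⟩ := H.prm.2.2 c e (num w) (num y) T
    rw [hlog] at h5 h6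
    obtain ⟨g1, g2, g3⟩ := hn₀ w.length (by omega) _ h5 _ h6
    obtain ⟨g4, g5⟩ := g3 (num w) hlog
    refine hcd w y _ he rfl rfl ?_ ?_ g4 g5
    · show _ ≤ LW (Nat.log 2 (num w))
      rw [hlog]
      exact g1
    · show c₀ + LW (Nat.log 2 (num w)) + _ + _ + 8 ≤ 2 ^ (2 * ll (Nat.log 2 (num w)))
      rw [hlog]
      exact g2
  refine ⟨fun T _ hT => sound Q H.sil H.eds H.rcs H.prm (hCod T) hT, ?_⟩
  rintro ⟨g, r, s, a, x, h, z, k, K, τ, hacc, hfit, hτ0, hτK, hK0, hK, hpart, hlive, b1, b2, b3,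
    b4⟩
  obtain ⟨q1, q2, q3, q4, q5, q6, q7, q8, q9⟩ := hn₁ w.length (by omega) s a x h z k b1 b2 b3 b4
  exact complete Q H.sil H.mem H.edc H.rcc H.prm hCod hacc hfit hτ0 hτK hK0 hK hpart hlive
    q1 q2 q3 q4 q5 q6 q7 q8 q9

/-- **Average-case hardness for machines with messages and few live registers.** -/
theorem sus_main (Q : Sim) (H : Parts) (c : ℕ) :
    ∃ (L : Set (List Bool)) (s : ℕ → List Bool), DLINSPACE L ∧
      (∀ n, (s n).length = n) ∧
      (∀ w, w ∈ L ↔ Odd ((List.zipWith and (s w.length) w).count true)) ∧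
      ∀ (A : NBM) (C : ℝ), ∃ c' : ℝ, ∀ (n : ℕ) (α : List Bool), ∀ M, M = L ∨ M = Lᶜ →
        ({w : List Bool | w.length = n ∧
          (Alt true (c * n) (fun v => ∃ g r, A.AcceptsAt w (α ++ v) g r) → w ∈ M) ∧
          (w ∈ M → Alt true (c * n) fun v => A.Within c C w (α ++ v))}.ncard : ℝ) ≤
          2 ^ n / 2 + c' * ((min α.length (n - α.length) : ℕ) + 1) *
            2 ^ (((n : ℝ) + α.length) / 2) := by
  obtain ⟨L, s, h1, h2, h3, h4⟩ := Pool.Agent.Helper78.Gen2.alt_main (acc Q c) NF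
    (LS.acc Q H.lsw H.lse H.prm c) LS.NF c
  refine ⟨L, s, h1, h2, h3, fun A C => ?_⟩
  have h := h4 (fun w y => ∃ g r, A.AcceptsAt w y g r) (A.Within c C) (exists_good Q H c A C)
  simp only [Pool.Agent.Helper28.Few.alt_iff] at h
  exact h

/-- Languages accepted by machines with messages and few live registers are in linear space. -/
theorem sus_lin (Q : Sim) (H : Parts) (c : ℕ) (A : NBM) (L : Set (List Bool)) (C : ℝ)
    (h1 : ∀ w, Alt true (c * w.length) (fun v => ∃ g r, A.AcceptsAt w v g r) → w ∈ L)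
    (h2 : ∀ w ∈ L, Alt true (c * w.length) (A.Within c C w)) : DLINSPACE L :=
  Pool.Agent.Helper78.Gen2.alt_lin (acc Q c) NF (LS.acc Q H.lsw H.lse H.prm c) LS.NF c L
    (fun w y => ∃ g r, A.AcceptsAt w y g r) (A.Within c C) (exists_good Q H c A C)
    (fun w h => h1 w ((Pool.Agent.Helper28.Few.alt_iff _ _ _).1 h))
    (fun w hw => (Pool.Agent.Helper28.Few.alt_iff _ _ _).2 (h2 w hw))

end Pool.Agent.Helper28.Sus
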