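import Pool.Agent.Helper28.Ram.Alg

/-!
# Macro steps of a machine with messages

A step is silent if the new event is silent; then the memory does not change. A macro step consists
of `2 ^ h` steps of which only the silent ones are executed, until the first step which is not
silent, and of one more step.
-/

namespace Pool.Agent.Helper28.Sus

open Pool.Agent.Helper65.LinSpace Pool.Agent.Helper28.Ram Finset

/-- The configuration after `t` steps. -/
def gf (A : ℕ → ℕ) (N : ℕ → ℕ → ℕ) (W : ℕ → ℕ → ℕ → ℕ) (q : ℕ) (M : ℕ → ℕ) : ℕ → ℕ × (ℕ → ℕ)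
  | 0 => (q, M)
  | t + 1 =>
    (N (gf A N W q M t).1 ((gf A N W q M t).2 (A (gf A N W q M t).1)),
      fun x => W x (N (gf A N W q M t).1 ((gf A N W q M t).2 (A (gf A N W q M t).1)))
        ((gf A N W q M t).2 x))

/-- A silent step is executed, otherwise the state is kept. -/
def silg (A : ℕ → ℕ) (N : ℕ → ℕ → ℕ) (Q : ℕ → ℕ) (M : ℕ → ℕ) (q : ℕ) : ℕ :=
  if Q (N q (M (A q))) = 0 then q else N q (M (A q))

/-- The configuration after `T` macro steps. -/
def mgf (A : ℕ → ℕ) (N : ℕ → ℕ → ℕ) (Q : ℕ → ℕ) (W : ℕ → ℕ → ℕ → ℕ) (h q : ℕ) (M : ℕ → ℕ) :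
    ℕ → ℕ × (ℕ → ℕ)
  | 0 => (q, M)
  | T + 1 => gf A N W (iter (fun _ u => silg A N Q (mgf A N Q W h q M T).2 u) (2 ^ h)
      (mgf A N Q W h q M T).1) (mgf A N Q W h q M T).2 1

section

variable {A : ℕ → ℕ} {N : ℕ → ℕ → ℕ} {Q : ℕ → ℕ} {W : ℕ → ℕ → ℕ → ℕ} {q : ℕ} {M : ℕ → ℕ}

theorem gf_succ (t : ℕ) : gf A N W q M (t + 1) =
    (N (gf A N W q M t).1 ((gf A N W q M t).2 (A (gf A N W q M t).1)),
      fun x => W x (N (gf A N W q M t).1 ((gf A N W q M t).2 (A (gf A N W q M t).1)))
        ((gf A N W q M t).2 x)) := rfl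

theorem gf_one_gf (t : ℕ) : gf A N W (gf A N W q M t).1 (gf A N W q M t).2 1 =
    gf A N W q M (t + 1) := rfl

variable (A N Q W q M) in
/-- The step `t` is not silent. -/
def chg (t : ℕ) : Prop := Q (gf A N W q M (t + 1)).1 = 0

variable (hsil : ∀ t x f, Q f ≠ 0 → W x f ((gf A N W q M t).2 x) = (gf A N W q M t).2 x)

include hsil in
theorem mem_of_not_chg {t : ℕ} (h : ¬chg A N Q W q M t) :
    (gf A N W q M (t + 1)).2 = (gf A N W q M t).2 := by
  funext x
  exact hsil _ _ _ h

theorem sil_of_not_chg {t : ℕ} (h : ¬chg A N Q W q M t) :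
    silg A N Q (gf A N W q M t).2 (gf A N W q M t).1 = (gf A N W q M (t + 1)).1 := by
  unfold silg
  exact if_neg h

theorem sil_of_chg {t : ℕ} (h : chg A N Q W q M t) :
    silg A N Q (gf A N W q M t).2 (gf A N W q M t).1 = (gf A N W q M t).1 := by
  unfold silg
  exact if_pos h

include hsil in
theorem mem_eq {t j : ℕ} (h : ∀ i < j, ¬chg A N Q W q M (t + i)) :
    (gf A N W q M (t + j)).2 = (gf A N W q M t).2 := by
  induction j with
  | zero => rfl
  | succ j ih =>
    rw [← add_assoc, mem_of_not_chg hsil (h j (by omega)), ih fun i hi => h i (by omega)]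

include hsil in
/-- The absorbing silent steps from a configuration of the run. -/
theorem run (t n : ℕ) : ∃ j ≤ n, (∀ i < j, ¬chg A N Q W q M (t + i)) ∧
    iter (fun _ q' => silg A N Q (gf A N W q M t).2 q') n (gf A N W q M t).1 =
      (gf A N W q M (t + j)).1 ∧ (j = n ∨ chg A N Q W q M (t + j)) := by
  induction n with
  | zero => exact ⟨0, le_rfl, fun i hi => absurd hi (Nat.not_lt_zero i), rfl, Or.inl rfl⟩
  | succ n ih =>
    obtain ⟨j, hj, h1, h2, h3⟩ := ih
    have e : iter (fun _ q' => silg A N Q (gf A N W q M t).2 q') (n + 1) (gf A N W q M t).1 =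
        silg A N Q (gf A N W q M t).2
          (iter (fun _ q' => silg A N Q (gf A N W q M t).2 q') n (gf A N W q M t).1) := rfl
    have hm := mem_eq hsil h1
    rw [e, h2]
    by_cases hc : chg A N Q W q M (t + j)
    · refine ⟨j, by omega, h1, ?_, Or.inr hc⟩
      rw [← hm]
      exact sil_of_chg hc
    · have hjn : j = n := h3.resolve_right hc
      subst hjn
      refine ⟨j + 1, le_rfl, fun i hi => ?_, ?_, Or.inl rfl⟩
      · rcases Nat.lt_or_ge i j with h | h
        · exact h1 i h
        · have : i = j := by omega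
          rw [this]
          exact hc
      · rw [← hm]
        exact sil_of_not_chg hc

include hsil in
/-- A macro step from a configuration of the run. -/
theorem macro_step {h T t : ℕ} (hT : mgf A N Q W h q M T = gf A N W q M t) :
    ∃ j ≤ 2 ^ h, (∀ i < j, ¬chg A N Q W q M (t + i)) ∧
      mgf A N Q W h q M (T + 1) = gf A N W q M (t + j + 1) ∧
      (j = 2 ^ h ∨ chg A N Q W q M (t + j)) := by
  obtain ⟨j, hj, h1, h2, h3⟩ := run (A := A) (N := N) (W := W) (q := q) (M := M) hsil t (2 ^ h)
  refine ⟨j, hj, h1, ?_, h3⟩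
  show gf A N W (iter (fun _ u => silg A N Q (mgf A N Q W h q M T).2 u) (2 ^ h)
      (mgf A N Q W h q M T).1) (mgf A N Q W h q M T).2 1 = _
  rw [hT, h2, ← mem_eq hsil h1]
  exact gf_one_gf _

include hsil in
/-- The macro run consists of configurations of the run. -/
theorem macro_sound (h T : ℕ) : ∃ t, mgf A N Q W h q M T = gf A N W q M t := by
  induction T with
  | zero => exact ⟨0, rfl⟩
  | succ T ih =>
    obtain ⟨t, ht⟩ := ih
    obtain ⟨j, _, _, h2, _⟩ := macro_step hsil ht
    exact ⟨_, h2⟩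

open Classical in
variable (A N Q W q M) in
/-- The number of steps before the time `t` which are not silent. -/
noncomputable def chs (t : ℕ) : ℕ := ((range t).filter (chg A N Q W q M)).card

theorem chs_mono {s t : ℕ} (h : s ≤ t) : chs A N Q W q M s ≤ chs A N Q W q M t := by
  classical
  exact card_le_card (filter_subset_filter _ (range_mono h))

theorem chs_lt {s t : ℕ} (h : s < t) (hc : chg A N Q W q M s) :
    chs A N Q W q M s + 1 ≤ chs A N Q W q M t := by
  classical
  refine le_trans ?_ (chs_mono (A := A) (N := N) (Q := Q) (W := W) (q := q) (M := M) h)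
  unfold chs
  rw [range_add_one, filter_insert, if_pos hc, card_insert_of_notMem (by simp)]

/-- Acceptance: an accepting state is kept. -/
def Absorb (A : ℕ → ℕ) (N : ℕ → ℕ → ℕ) (W : ℕ → ℕ → ℕ → ℕ) (q : ℕ) (M : ℕ → ℕ)
    (acc : ℕ → Prop) : Prop :=
  ∀ t, acc (gf A N W q M t).1 → acc (gf A N W q M (t + 1)).1

theorem keep {acc : ℕ → Prop} (ha : Absorb A N W q M acc) {t : ℕ}
    (h : acc (gf A N W q M t).1) : ∀ s, t ≤ s → acc (gf A N W q M s).1 := by
  intro s hs
  induction s, hs using Nat.le_induction with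
  | base => exact h
  | succ s _ ih => exact ha s ih

include hsil in
/-- **The macro run accepts.** -/
theorem macro_complete {acc : ℕ → Prop} (ha : Absorb A N W q M acc) {h r x : ℕ}
    (hr : acc (gf A N W q M r).1) (hx : chs A N Q W q M r ≤ x)
    (hb : r ≤ 2 ^ h * (x + 1)) :
    ∀ T, 2 * x + 1 ≤ T → acc (mgf A N Q W h q M T).1 := by
  have hacc : ∀ t, r ≤ t → acc (gf A N W q M t).1 := fun t ht => keep ha hr t ht
  -- the potential
  obtain ⟨φ, hφ1, hφ2, hφ3⟩ : ∃ φ : ℕ → ℕ,
      (∀ t < r, φ t ≤ 2 * x) ∧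
      (∀ t j, chg A N Q W q M (t + j) → φ t + 1 ≤ φ (t + j + 1)) ∧
      (∀ t, φ t + 1 ≤ φ (t + 2 ^ h + 1)) := by
    refine ⟨fun t => chs A N Q W q M t + t / 2 ^ h, fun t ht => ?_, fun t j hc => ?_,
      fun t => ?_⟩
    · have h1 : t / 2 ^ h < x + 1 := by
        rw [Nat.div_lt_iff_lt_mul (by positivity), mul_comm]
        omega
      have h2 := chs_mono (A := A) (N := N) (Q := Q) (W := W) (q := q) (M := M) ht.le
      show chs A N Q W q M t + t / 2 ^ h ≤ 2 * x
      omega
    · have h1 : t / 2 ^ h ≤ (t + j + 1) / 2 ^ h := Nat.div_le_div_right (by omega)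
      have h2 := chs_mono (A := A) (N := N) (Q := Q) (W := W) (q := q) (M := M)
        (show t ≤ t + j by omega)
      have h3 := chs_lt (A := A) (N := N) (Q := Q) (W := W) (q := q) (M := M)
        (show t + j < t + j + 1 by omega) hc
      show chs A N Q W q M t + t / 2 ^ h + 1 ≤ chs A N Q W q M (t + j + 1) + (t + j + 1) / 2 ^ h
      omega
    · have h0 : 0 < 2 ^ h := by positivity
      have h1 : t / 2 ^ h + 1 ≤ (t + 2 ^ h + 1) / 2 ^ h := by
        rw [← Nat.add_div_right t h0]
        exact Nat.div_le_div_right (by omega)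
      have h2 := chs_mono (A := A) (N := N) (Q := Q) (W := W) (q := q) (M := M)
        (show t ≤ t + 2 ^ h + 1 by omega)
      show chs A N Q W q M t + t / 2 ^ h + 1 ≤
        chs A N Q W q M (t + 2 ^ h + 1) + (t + 2 ^ h + 1) / 2 ^ h
      omega
  have main : ∀ T, acc (mgf A N Q W h q M T).1 ∨
      ∃ t < r, mgf A N Q W h q M T = gf A N W q M t ∧ T ≤ φ t := by
    intro T
    induction T with
    | zero =>
      rcases Nat.eq_zero_or_pos r with h0 | h0
      · left
        subst h0
        exact hr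
      · exact Or.inr ⟨0, h0, rfl, Nat.zero_le _⟩
    | succ T ih =>
      by_cases hna : acc (mgf A N Q W h q M (T + 1)).1
      · exact Or.inl hna
      right
      rcases ih with hT | ⟨t, ht, e, hT⟩
      · exfalso
        obtain ⟨t, ht⟩ := macro_sound (A := A) (N := N) (W := W) (q := q) (M := M) hsil h T
        obtain ⟨j, _, _, e2, _⟩ := macro_step hsil ht
        apply hna
        rw [ht] at hT
        rw [e2]
        exact keep ha hT _ (by omega)
      · obtain ⟨j, hj, h1, e2, h3⟩ := macro_step hsil e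
        rw [e2] at hna
        refine ⟨t + j + 1, ?_, e2, ?_⟩
        · by_contra hcon
          exact hna (hacc _ (by omega))
        · by_cases hc : chg A N Q W q M (t + j)
          · have := hφ2 t j hc
            omega
          · have hj2 : j = 2 ^ h := h3.resolve_right hc
            subst hj2
            have := hφ3 t
            omega
  intro T hT
  rcases main T with h1 | ⟨t, ht, _, h2⟩
  · exact h1
  · have := hφ1 t ht
    omega

end

end Pool.Agent.Helper28.Sus
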