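import Pool.Agent.Helper19.Ram.FLAT

/-!
# Reachability in at most `2 ^ k` steps is computed in linear space (Savitch)
-/

namespace Pool.Agent.Helper28.Sus

open Pool.Agent.Helper65.LinSpace Pool.Agent.Helper28.Ram Finset

/-- Reachability in `2 ^ k` steps, with intermediate points smaller than `Z`. -/
def rc (E : ℕ → ℕ → ℕ) (Z : ℕ) : ℕ → ℕ → ℕ → ℕ
  | 0, c, d => lt01 0 (E c d)
  | l + 1, c, d => lt01 0 (∑ m ∈ range Z, rc E Z l c m * rc E Z l m d)

theorem lt_le (x y : ℕ) : lt01 x y ≤ 1 := by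
  unfold lt01
  split_ifs <;> norm_num

theorem lt_ne {x : ℕ} : lt01 0 x ≠ 0 ↔ x ≠ 0 := by
  unfold lt01
  split_ifs with h
  · simp only [ne_eq, one_ne_zero, not_false_eq_true, true_iff]
    omega
  · simp only [ne_eq, not_true_eq_false, false_iff, not_not]
    omega

theorem rc_le (E : ℕ → ℕ → ℕ) (Z l c d : ℕ) : rc E Z l c d ≤ 1 := by
  cases l <;> exact lt_le _ _

theorem rc_zero (E : ℕ → ℕ → ℕ) (Z c d : ℕ) : rc E Z 0 c d ≠ 0 ↔ E c d ≠ 0 := lt_ne

theorem rc_succ (E : ℕ → ℕ → ℕ) (Z l c d : ℕ) : rc E Z (l + 1) c d ≠ 0 ↔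
    ∃ m < Z, rc E Z l c m ≠ 0 ∧ rc E Z l m d ≠ 0 := by
  refine lt_ne.trans ?_
  rw [Ne, sum_eq_zero_iff]
  push Not
  constructor
  · rintro ⟨m, hm, h⟩
    exact ⟨m, mem_range.1 hm, left_ne_zero_of_mul h, right_ne_zero_of_mul h⟩
  · rintro ⟨m, hm, h2, h3⟩
    exact ⟨m, mem_range.2 hm, Nat.mul_ne_zero h2 h3⟩

/-! ### The procedure -/

/-- The base operation: evaluate the edge at the level `0`. -/
def sbase (E : ℕ → ℕ → ℕ) (Z : ℕ) (s : ℕ → ℕ) (x : ℕ) : ℕ :=
  ifz (eq01 x 2) (min (s x) (Z + 1)) (lt01 0 (E (s 0) (s 1)))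

/-- The operations: the entries `4 l`, `4 l + 1`, `4 l + 2`, `4 l + 3` are start, end, result and the
auxiliary value of the level `l`. -/
def sop (Z l j : ℕ) (s : ℕ → ℕ) (x : ℕ) : ℕ :=
  ifz (eq01 x (4 * l))
    (ifz (eq01 x (4 * l + 1))
      (ifz (eq01 x (4 * l + 6))
        (ifz (eq01 x (4 * l + 7))
          (min (s x) (Z + 1))
          (ifz (j % 2) (min (s x) (Z + 1)) (min (s (4 * l + 2)) (Z + 1))))
        (ifz j 0 (ifz (j % 2) (lt01 0 (s (4 * l + 6) + s (4 * l + 7) * s (4 * l + 2)))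
          (min (s x) (Z + 1)))))
      (ifz (j % 2) (min (j / 2) (Z + 1)) (min (s (4 * l + 5)) (Z + 1))))
    (ifz (j % 2) (min (s (4 * l + 4)) (Z + 1)) (min (j / 2) (Z + 1)))

/-- Valid arrays. -/
def Val (Z Λ : ℕ) (s : ℕ → ℕ) : Prop := (∀ x, s x ≤ Z + 1) ∧ ∀ x, Λ ≤ x → s x = 0

theorem sbase_le (E : ℕ → ℕ → ℕ) (Z : ℕ) (s : ℕ → ℕ) (x : ℕ) : sbase E Z s x < Z + 2 := by
  unfold sbase
  rw [ifz_eq01]
  split_ifs
  · have := lt_le 0 (E (s 0) (s 1))
    omega
  · have := min_le_right (s x) (Z + 1)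
    omega

theorem sop_le (Z l j : ℕ) (s : ℕ → ℕ) (x : ℕ) : sop Z l j s x < Z + 2 := by
  unfold sop
  simp only [ifz_eq01]
  unfold ifz
  have h1 := min_le_right (s x) (Z + 1)
  have h2 := min_le_right (s (4 * l + 2)) (Z + 1)
  have h3 := min_le_right (s (4 * l + 5)) (Z + 1)
  have h4 := min_le_right (s (4 * l + 4)) (Z + 1)
  have h5 := min_le_right (j / 2) (Z + 1)
  have h6 := lt_le 0 (s (4 * l + 6) + s (4 * l + 7) * s (4 * l + 2))
  split_ifs <;> omega

theorem val_trc {Z Λ : ℕ} {s : ℕ → ℕ} (h : ∀ x, s x < Z + 2) : Val Z Λ (trc Λ s) := by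
  refine ⟨fun x => ?_, fun x hx => ?_⟩
  · unfold trc
    have := h x
    split_ifs <;> omega
  · unfold trc
    rw [if_neg (by omega)]

section

variable (E : ℕ → ℕ → ℕ) (Z k : ℕ)

/-- The procedure of the level `l`. -/
def sprc (l : ℕ) (s : ℕ → ℕ) : ℕ → ℕ :=
  prc (4 * (k + 1)) (fun _ => 2 * Z + 1) (sbase E Z) (sop Z) l s

/-- What the procedure does. -/
def Does (l : ℕ) (s s' : ℕ → ℕ) : Prop :=
  Val Z (4 * (k + 1)) s' ∧ (∀ x, 4 * l ≤ x → x ≠ 4 * l + 2 → x ≠ 4 * l + 3 → s' x = s x) ∧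
    s' (4 * l + 2) = rc E Z l (s (4 * l)) (s (4 * l + 1))

/-- The partial result. -/
def ex (l F T m : ℕ) : ℕ := lt01 0 (∑ i ∈ range m, rc E Z l F i * rc E Z l i T)

theorem ex_succ (l F T m : ℕ) : ex E Z l F T (m + 1) =
    lt01 0 (ex E Z l F T m + rc E Z l F m * rc E Z l m T) := by
  unfold ex
  rw [sum_range_succ]
  generalize ∑ i ∈ range m, rc E Z l F i * rc E Z l i T = a
  generalize rc E Z l F m * rc E Z l m T = b
  unfold lt01
  split_ifs <;> omega

/-- The state after `2 m + 1` rounds. -/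
def Inv (l F T m : ℕ) (s s' : ℕ → ℕ) : Prop :=
  Val Z (4 * (k + 1)) s' ∧ (∀ x, 4 * l + 4 ≤ x → x ≠ 4 * l + 6 → x ≠ 4 * l + 7 → s' x = s x) ∧
    s' (4 * l + 6) = ex E Z l F T m ∧ s' (4 * l + 2) = rc E Z l F m

variable {E Z k}

theorem trc_sop {l j : ℕ} {s : ℕ → ℕ} (hl : l + 1 ≤ k) (hs : Val Z (4 * (k + 1)) s) :
    Val Z (4 * (k + 1)) (trc (4 * (k + 1)) (sop Z l j s)) ∧
    (∀ x, 4 * l + 4 ≤ x → x ≠ 4 * l + 6 → x ≠ 4 * l + 7 →
      trc (4 * (k + 1)) (sop Z l j s) x = s x) ∧
    trc (4 * (k + 1)) (sop Z l j s) (4 * l) =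
      (if j % 2 = 0 then s (4 * l + 4) else min (j / 2) (Z + 1)) ∧
    trc (4 * (k + 1)) (sop Z l j s) (4 * l + 1) =
      (if j % 2 = 0 then min (j / 2) (Z + 1) else s (4 * l + 5)) ∧
    trc (4 * (k + 1)) (sop Z l j s) (4 * l + 6) = (if j = 0 then 0 else if j % 2 = 0 then
      lt01 0 (s (4 * l + 6) + s (4 * l + 7) * s (4 * l + 2)) else s (4 * l + 6)) ∧
    trc (4 * (k + 1)) (sop Z l j s) (4 * l + 7) =
      (if j % 2 = 0 then s (4 * l + 7) else s (4 * l + 2)) := by
  have hm : ∀ x, min (s x) (Z + 1) = s x := fun x => min_eq_left (hs.1 x)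
  refine ⟨val_trc (sop_le Z l j s), fun x h1 h2 h3 => ?_, ?_, ?_, ?_, ?_⟩
  · unfold trc
    split_ifs with h
    · unfold sop
      simp only [ifz_eq01]
      rw [if_neg (by omega), if_neg (by omega), if_neg h2, if_neg h3, hm]
    · rw [hs.2 x (by omega)]
  · unfold trc
    rw [if_pos (by omega)]
    unfold sop
    simp only [ifz_eq01]
    rw [if_pos trivial, hm]
    rfl
  · unfold trc
    rw [if_pos (by omega)]
    unfold sop
    simp only [ifz_eq01]
    rw [if_neg (by omega), if_pos trivial, hm]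
    rfl
  · unfold trc
    rw [if_pos (by omega)]
    unfold sop
    simp only [ifz_eq01]
    rw [if_neg (by omega), if_neg (by omega), if_pos trivial, hm]
    rfl
  · unfold trc
    rw [if_pos (by omega)]
    unfold sop
    simp only [ifz_eq01]
    rw [if_neg (by omega), if_neg (by omega), if_neg (by omega), if_pos trivial, hm, hm]
    rfl

theorem does_sprc {l : ℕ} (hl : l ≤ k) : ∀ {s : ℕ → ℕ}, Val Z (4 * (k + 1)) s →
    Does E Z k l s (sprc E Z k l s) := by
  induction l with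
  | zero =>
    intro s hs
    show Does E Z k 0 s (trc (4 * (k + 1)) (sbase E Z s))
    refine ⟨val_trc (sbase_le E Z s), fun x _ h2 _ => ?_, ?_⟩
    · unfold trc
      split_ifs with h
      · unfold sbase
        rw [ifz_eq01, if_neg (by omega), min_eq_left (hs.1 x)]
      · rw [hs.2 x (by omega)]
    · unfold trc
      rw [if_pos (by omega)]
      unfold sbase
      rw [ifz_eq01, if_pos (by omega)]
      rfl
  | succ l ih =>
    intro s hs
    have ih' := @ih (by omega)
    clear ih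
    set F := s (4 * l + 4) with hF
    set T := s (4 * l + 5) with hT
    set f : ℕ → (ℕ → ℕ) → ℕ → ℕ := fun j s =>
      sprc E Z k l (trc (4 * (k + 1)) (sop Z l j s)) with hf
    have hprc : sprc E Z k (l + 1) s = iter f (2 * Z + 1) s := rfl
    have key : ∀ m ≤ Z, Inv E Z k l F T m s (iter f (2 * m + 1) s) := by
      intro m
      induction m with
      | zero =>
        intro _
        show Inv E Z k l F T 0 s (f 0 s)
        obtain ⟨v1, v2, v3, v4, v5, v6⟩ := trc_sop (j := 0) hl hs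
        obtain ⟨w1, w2, w3⟩ := ih' v1
        refine ⟨w1, fun x h1 h2 h3 => ?_, ?_, ?_⟩
        · rw [hf]
          show sprc E Z k l _ x = s x
          rw [w2 x (by omega) (by omega) (by omega), v2 x h1 h2 h3]
        · rw [hf]
          show sprc E Z k l _ (4 * l + 6) = _
          rw [w2 _ (by omega) (by omega) (by omega), v5, if_pos rfl]
          rfl
        · rw [hf]
          show sprc E Z k l _ (4 * l + 2) = _
          rw [w3, v3, v4, if_pos rfl, if_pos rfl]
          rfl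
      | succ m ihm =>
        intro hm
        obtain ⟨i1, i2, i3, i4⟩ := ihm (by omega)
        have e : iter f (2 * (m + 1) + 1) s =
            f (2 * m + 2) (f (2 * m + 1) (iter f (2 * m + 1) s)) := rfl
        rw [e]
        clear e
        generalize iter f (2 * m + 1) s = u at *
        -- the first call
        obtain ⟨v1, v2, v3, v4, v5, v6⟩ := trc_sop (j := 2 * m + 1) hl i1
        rw [if_neg (by omega)] at v3 v4 v5 v6
        rw [if_neg (by omega)] at v5
        obtain ⟨w1, w2, w3⟩ := ih' v1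
        have a1 : Val Z (4 * (k + 1)) (f (2 * m + 1) u) := w1
        have a2 : ∀ x, 4 * l + 4 ≤ x → x ≠ 4 * l + 6 → x ≠ 4 * l + 7 →
            f (2 * m + 1) u x = s x := fun x h1 h2 h3 => by
          show sprc E Z k l _ x = s x
          rw [w2 x (by omega) (by omega) (by omega), v2 x h1 h2 h3, i2 x h1 h2 h3]
        have a3 : f (2 * m + 1) u (4 * l + 6) = ex E Z l F T m := by
          show sprc E Z k l _ (4 * l + 6) = _
          rw [w2 _ (by omega) (by omega) (by omega), v5, i3]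
        have a4 : f (2 * m + 1) u (4 * l + 7) = rc E Z l F m := by
          show sprc E Z k l _ (4 * l + 7) = _
          rw [w2 _ (by omega) (by omega) (by omega), v6, i4]
        have a5 : f (2 * m + 1) u (4 * l + 2) = rc E Z l m T := by
          show sprc E Z k l _ (4 * l + 2) = _
          rw [w3, v3, v4, i2 _ (by omega) (by omega) (by omega)]
          congr 1
          omega
        generalize f (2 * m + 1) u = u' at *
        clear v1 v2 v3 v4 v5 v6 w1 w2 w3
        -- the second call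
        obtain ⟨v1, v2, v3, v4, v5, v6⟩ := trc_sop (j := 2 * m + 2) hl a1
        rw [if_pos (by omega)] at v3 v4
        rw [if_neg (by omega), if_pos (by omega)] at v5
        obtain ⟨w1, w2, w3⟩ := ih' v1
        refine ⟨w1, fun x h1 h2 h3 => ?_, ?_, ?_⟩
        · show sprc E Z k l _ x = s x
          rw [w2 x (by omega) (by omega) (by omega), v2 x h1 h2 h3, a2 x h1 h2 h3]
        · show sprc E Z k l _ (4 * l + 6) = _
          rw [w2 _ (by omega) (by omega) (by omega), v5, a3, a4, a5, ex_succ]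
        · show sprc E Z k l _ (4 * l + 2) = _
          rw [w3, v3, v4, a2 _ (by omega) (by omega) (by omega)]
          congr 1
          omega
    obtain ⟨i1, i2, i3, _⟩ := key Z le_rfl
    rw [hprc]
    refine ⟨i1, fun x h1 h2 h3 => i2 x (by omega) (by omega) (by omega), ?_⟩
    have e : 4 * (l + 1) + 2 = 4 * l + 6 := by ring
    rw [e, i3]
    rfl

end

variable {α : Type} [Ctx α]

/-- **Savitch.** Reachability in `2 ^ k` steps is computed in linear space. -/
theorem LS.rc {E : α → ℕ → ℕ → ℕ} {Z k c d C : α → ℕ}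
    (hE : LS (fun z : α × ℕ × ℕ => E z.1 z.2.1 z.2.2)) (hZ : LS Z) (hk : LS k) (hc : LS c)
    (hd : LS d) (hC : LS C) (hb : ∀ a, (Z a + 2) ^ (4 * (k a + 1)) ≤ C a)
    (hc1 : ∀ a, c a ≤ Z a + 1) (hd1 : ∀ a, d a ≤ Z a + 1) :
    LS (fun a => Sus.rc (E a) (Z a) (k a) (c a) (d a)) := by
  have h := Pool.Agent.Helper19.Ram.FLAT (α := α) (β := fun a => Z a + 2)
    (Λ := fun a => 4 * (k a + 1)) (lv := k) (C := C) (cnt := fun a _ => 2 * Z a + 1)
    (base := fun a => sbase (E a) (Z a)) (op := fun a => sop (Z a))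
    (s0 := fun a x => ifz (eq01 x (4 * k a)) (ifz (eq01 x (4 * k a + 1)) 0
      (min (d a) (Z a + 1))) (min (c a) (Z a + 1)))
    (by fun_prop) (by fun_prop) hk hC (by fun_prop) ?_ ?_ (by fun_prop)
    (fun a s x => sbase_le _ _ _ _) (fun a l j s x => sop_le _ _ _ _ _) ?_ hb ?_
    (fun a l => by omega)
  · have h2 : LS (fun a => prc (4 * (k a + 1)) (fun _ => 2 * Z a + 1) (sbase (E a) (Z a))
        (sop (Z a)) (k a) (trc (4 * (k a + 1)) (fun x => ifz (eq01 x (4 * k a))
          (ifz (eq01 x (4 * k a + 1)) 0 (min (d a) (Z a + 1))) (min (c a) (Z a + 1))))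
            (4 * k a + 2)) :=
      LS.comp (f := fun a : α => (a, 4 * k a + 2)) h (by fun_prop)
    refine LS.congr h2 fun a => ?_
    set s0 : ℕ → ℕ := trc (4 * (k a + 1)) (fun x => ifz (eq01 x (4 * k a))
          (ifz (eq01 x (4 * k a + 1)) 0 (min (d a) (Z a + 1))) (min (c a) (Z a + 1))) with hs0
    have hval : Val (Z a) (4 * (k a + 1)) s0 := by
      refine val_trc fun x => ?_
      simp only [ifz_eq01]
      have := min_le_right (d a) (Z a + 1)
      have := min_le_right (c a) (Z a + 1)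
      split_ifs <;> omega
    obtain ⟨_, _, h3⟩ := does_sprc (E := E a) (le_refl (k a)) hval
    have e0 : s0 (4 * k a) = c a := by
      rw [hs0]
      unfold trc
      rw [if_pos (by omega)]
      simp only [ifz_eq01]
      rw [if_pos trivial, min_eq_left (hc1 a)]
    have e1 : s0 (4 * k a + 1) = d a := by
      rw [hs0]
      unfold trc
      rw [if_pos (by omega)]
      simp only [ifz_eq01]
      rw [if_neg (by omega), if_pos trivial, min_eq_left (hd1 a)]
    rw [e0, e1] at h3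
    exact h3.symm
  · -- base
    have hdg : LS (fun z : α × ℕ × ℕ => dig (Z z.1 + 2) z.2.1 z.2.2) := by fun_prop
    have h0 : LS (fun z : α × ℕ × ℕ => dig (Z z.1 + 2) z.2.1 0) := by fun_prop
    have h1 : LS (fun z : α × ℕ × ℕ => dig (Z z.1 + 2) z.2.1 1) := by fun_prop
    have hE' : LS (fun z : α × ℕ × ℕ => E z.1 (dig (Z z.1 + 2) z.2.1 0)
        (dig (Z z.1 + 2) z.2.1 1)) :=
      LS.comp (g := fun z : α × ℕ × ℕ => E z.1 z.2.1 z.2.2)
        (f := fun z : α × ℕ × ℕ => (z.1, dig (Z z.1 + 2) z.2.1 0, dig (Z z.1 + 2) z.2.1 1))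
        hE (by fun_prop)
    unfold sbase
    fun_prop
  · -- operations
    unfold sop
    fun_prop
  · intro a x
    simp only [ifz_eq01]
    have := min_le_right (d a) (Z a + 1)
    have := min_le_right (c a) (Z a + 1)
    split_ifs <;> omega
  · intro a
    rw [prod_const, card_range]
    refine le_trans ?_ (hb a)
    calc (2 * Z a + 1) ^ k a ≤ ((Z a + 2) ^ 2) ^ k a := by
          refine Nat.pow_le_pow_left ?_ _
          nlinarith
      _ = (Z a + 2) ^ (2 * k a) := by rw [← pow_mul]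
      _ ≤ _ := Nat.pow_le_pow_right (by omega) (by omega)

end Pool.Agent.Helper28.Sus
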