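import Pool.Agent.Helper28.Few.Defs

/-!
# Nondeterministic machines with messages, and live registers: definitions
-/

namespace Pool.Agent.Helper28.Sus

open Pool.Agent.Helper65.LinSpace Pool.Agent.Helper78.Mpc Pool.Agent.Helper28.Ram

/-- A nondeterministic machine whose registers are changed by messages. Its state is a word and its
registers, which are named by words, contain words. The registers with the names `0 u` are
read-only; such a register contains a word which depends on the letters number `u` (in binary) of the
input word and of the advice word. All other registers are empty at the start. In one step the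
machine in the state `q` reads the content `v` of the register `addr q` and goes into the state
`next (⟨q⟩ b v)`, where `b` is a guessed letter if `ask q` is true and `0` otherwise, and `⟨q⟩` is the
self-delimiting code of `q`. If the new state `q'` is a message (`msg q'` is true), then all registers
which are not read-only change their contents: the new content of the register `i` is
`write (⟨q'⟩ ⟨i⟩ c)`, where `c` is its old content, or the empty word if `reset (⟨q'⟩ ⟨i⟩)` is true. The
functions are computed in linear space. -/
structure NBM where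
  start : List Bool
  init : Option Bool → Option Bool → List Bool
  addr : List Bool → List Bool
  next : List Bool → List Bool
  write : List Bool → List Bool
  ask : List Bool → Bool
  msg : List Bool → Bool
  reset : List Bool → Bool
  addr_lin : LinComp addr
  next_lin : LinComp next
  write_lin : LinComp write
  ask_lin : LinComp fun u => [ask u]
  msg_lin : LinComp fun u => [msg u]
  reset_lin : LinComp fun u => [reset u]

/-- The contents of the registers at the start, `w` being the input word and `y` the advice word. -/
def NBM.mem0 (A : NBM) (w y : List Bool) : List Bool → List Bool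
  | false :: u => A.init w[bval u]? y[bval u]?
  | _ => []

/-- The content of the register `i` after the state `q` was reached, `c` being its old content. -/
def NBM.upd (A : NBM) (q i c : List Bool) : List Bool :=
  if A.msg q ∧ i.head? ≠ some false then
    A.write (sd q ++ (sd i ++ if A.reset (sd q ++ sd i) then [] else c))
  else c

/-- One step with the guessed letter `b`. -/
def NBM.step (A : NBM) (b : Bool) (c : List Bool × (List Bool → List Bool)) :
    List Bool × (List Bool → List Bool) :=
  let q := A.next (sd c.1 ++ (A.ask c.1 && b) :: c.2 (A.addr c.1))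
  (q, fun i => A.upd q i (c.2 i))

/-- The configuration after `t` steps from the configuration `c`, with the guessed letters
`g 0, g 1, …`. -/
def NBM.run (A : NBM) (g : ℕ → Bool) (c : List Bool × (List Bool → List Bool)) :
    ℕ → List Bool × (List Bool → List Bool)
  | 0 => c
  | t + 1 => A.step (g t) (A.run g c t)

/-- The state and the contents of the registers after `t` steps. -/
def NBM.conf (A : NBM) (w y : List Bool) (g : ℕ → Bool) (t : ℕ) :
    List Bool × (List Bool → List Bool) :=
  A.run g (A.start, A.mem0 w y) t

/-- The first letter of the state after `r` steps is `1`. -/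
def NBM.AcceptsAt (A : NBM) (w y : List Bool) (g : ℕ → Bool) (r : ℕ) : Prop :=
  (A.conf w y g r).1.head? = some true

/-- Up to the time `r`, the state and the name of the register which is read are words of length at
most `s`, and the contents of all registers with such names are words of length at most `a`. -/
def NBM.Fits (A : NBM) (w y : List Bool) (g : ℕ → Bool) (r s a : ℕ) : Prop :=
  ∀ t ≤ r, (A.conf w y g t).1.length ≤ s ∧ (A.addr (A.conf w y g t).1).length ≤ s ∧
    ∀ i : List Bool, i.length ≤ s → ((A.conf w y g t).2 i).length ≤ a

/-- The number of messages from the time `t` to the time `t'`. -/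
noncomputable def NBM.msgs (A : NBM) (w y : List Bool) (g : ℕ → Bool) (t t' : ℕ) : ℕ :=
  {i : ℕ | t ≤ i ∧ i < t' ∧ A.msg (A.conf w y g (i + 1)).1}.ncard

/-- The number of letters which are guessed from the time `t` to the time `t'`. -/
noncomputable def NBM.guesses (A : NBM) (w y : List Bool) (g : ℕ → Bool) (t t' : ℕ) : ℕ :=
  {i : ℕ | t ≤ i ∧ i < t' ∧ A.ask (A.conf w y g i).1}.ncard

/-- The register `i` is live at the time `t`: it is read at some time `t' ≥ t` before the time `r`,
and no message between `t` and `t'` resets it. -/
def NBM.Live (A : NBM) (w y : List Bool) (g : ℕ → Bool) (r t : ℕ) (i : List Bool) : Prop :=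
  ∃ t', t ≤ t' ∧ t' < r ∧ A.addr (A.conf w y g t').1 = i ∧
    ∀ u, t < u → u ≤ t' → ¬(A.msg (A.conf w y g u).1 ∧ A.reset (sd (A.conf w y g u).1 ++ sd i))

/-- The live registers at the time `t`, read-only registers excluded, have a total size of at most
`z`: the size of a register is `b` plus the length of its content. -/
def NBM.LiveIn (A : NBM) (w y : List Bool) (g : ℕ → Bool) (r t b z : ℕ) : Prop :=
  ∃ F : Finset (List Bool), (∀ i, i.head? ≠ some false → A.Live w y g r t i → i ∈ F) ∧
    ∑ i ∈ F, (((A.conf w y g t).2 i).length + b) ≤ z

/-- There is an accepting computation which can be divided into at most `2 ^ k` parts, with the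
following bounds, where `n` is the length of the input word: states and names have at most `s` bits,
contents of registers at most `a` bits; a part has at most `2 ^ h (x + 1)` steps, at most `x`
messages, and at most `c n` guessed letters; between two parts the live registers have a total size
of at most `z`, where the size of a register is the length of its content plus `s + l`. For
`l = h + ⌊log₂ n⌋ + 1`: `x (s + l) l ^ 2 ≤ C (n + 1) ^ (3 / 2)`,
`(s + l) (h + 1) l ≤ C (n + 1) ^ (1 / 2)`, `a l ^ 2 ≤ C (n + 1)`, and
`(k + 1) (z + s + l) l ≤ C (n + 1)`. -/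
def NBM.Within (A : NBM) (c : ℕ) (C : ℝ) (w y : List Bool) : Prop :=
  ∃ (g : ℕ → Bool) (r s a x h z k K : ℕ) (τ : ℕ → ℕ), A.AcceptsAt w y g r ∧
    A.Fits w y g r s a ∧ τ 0 = 0 ∧ τ K = r ∧ 0 < K ∧ K ≤ 2 ^ k ∧
    (∀ i < K, τ i ≤ τ (i + 1) ∧ τ (i + 1) ≤ τ i + 2 ^ h * (x + 1) ∧
      A.msgs w y g (τ i) (τ (i + 1)) ≤ x ∧ A.guesses w y g (τ i) (τ (i + 1)) ≤ c * w.length) ∧
    (∀ i, 0 < i → i < K → A.LiveIn w y g r (τ i) (s + (h + (Nat.log 2 w.length + 1))) z) ∧
    (x : ℝ) * ((s : ℝ) + ((h : ℝ) + ((Nat.log 2 w.length : ℝ) + 1))) *
        ((h : ℝ) + ((Nat.log 2 w.length : ℝ) + 1)) ^ 2 ≤ C * ((w.length : ℝ) + 1) ^ ((3 : ℝ) / 2) ∧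
    ((s : ℝ) + ((h : ℝ) + ((Nat.log 2 w.length : ℝ) + 1))) * ((h : ℝ) + 1) *
        ((h : ℝ) + ((Nat.log 2 w.length : ℝ) + 1)) ≤ C * ((w.length : ℝ) + 1) ^ ((1 : ℝ) / 2) ∧
    (a : ℝ) * ((h : ℝ) + ((Nat.log 2 w.length : ℝ) + 1)) ^ 2 ≤ C * ((w.length : ℝ) + 1) ∧
    ((k : ℝ) + 1) * ((z : ℝ) + s + ((h : ℝ) + ((Nat.log 2 w.length : ℝ) + 1))) *
        ((h : ℝ) + ((Nat.log 2 w.length : ℝ) + 1)) ≤ C * ((w.length : ℝ) + 1)

end Pool.Agent.Helper28.Sus
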