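import Pool.Agent.Helper28.Sus.Goals

/-!
# Completeness of reachability
-/

namespace Pool.Agent.Helper28.Sus

open Pool.Agent.Helper65.LinSpace

theorem rcc : RCC_stmt := by
  intro E Z k hE
  induction k with
  | zero =>
    intro K c hK hZ hc
    rw [rc_zero]
    rw [pow_zero] at hK
    rcases Nat.eq_zero_or_pos K with h0 | h0
    · rw [h0]
      exact hE _
    · have h1 : K = 1 := by omega
      rw [h1]
      exact hc 0 (by omega)
  | succ k ih =>
    intro K c hK hZ hc
    rw [rc_succ]
    rw [pow_succ] at hK
    refine ⟨c (min K (2 ^ k)), hZ _ (min_le_left _ _), ?_, ?_⟩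
    · exact ih (min K (2 ^ k)) c (min_le_right _ _) (fun i hi => hZ i (by omega))
        fun i hi => hc i (by omega)
    · have h := ih (K - min K (2 ^ k)) (fun i => c (min K (2 ^ k) + i)) (by omega)
        (fun i hi => hZ _ (by omega)) fun i hi => hc _ (by omega)
      have e : min K (2 ^ k) + (K - min K (2 ^ k)) = K := by omega
      simp only [add_zero] at h
      rw [e] at h
      exact h

end Pool.Agent.Helper28.Sus
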