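import Pool.Agent.Helper28.Sus.Fin
import Pool.Agent.Helper81.Tok3.Bridge
import Pool.Agent.Helper88.Sus.COD
import Pool.Agent.Helper88.Sus.PRM
import Pool.Agent.Helper94.Sus.SND
import Pool.Agent.Helper13.Sus.CMP
import Pool.Agent.Helper83.Sus.SIL
import Pool.Agent.Helper30.Sus.EDS
import Pool.Agent.Helper32.Sus.MEM
import Pool.Agent.Helper81.Sus.RCS
import Pool.Agent.Helper8.Sus.EDC
import Pool.Agent.Helper56.Sus.LSW
import Pool.Agent.Helper5.Sus.PAR
import Pool.Agent.Helper14.Sus.LSE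
import Pool.Agent.Helper28.Sus.RCC

/-!
# Sustained space: all parts
-/

namespace Pool.Agent.Helper28.Sus

theorem parts : Parts where
  cod := Pool.Agent.Helper88.Sus.cod
  snd := Pool.Agent.Helper94.Sus.snd
  cmp := Pool.Agent.Helper13.Sus.cmp
  sil := Pool.Agent.Helper83.Sus.sil
  mem := Pool.Agent.Helper32.Sus.mem
  eds := Pool.Agent.Helper30.Sus.eds Pool.Agent.Helper94.Sus.snd
  rcs := Pool.Agent.Helper81.Sus.rcs
  rcc := rcc
  edc := Pool.Agent.Helper8.Sus.edc Pool.Agent.Helper13.Sus.cmp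
  lsw := Pool.Agent.Helper56.Sus.lsw
  lse := Pool.Agent.Helper14.Sus.lse
  prm := Pool.Agent.Helper88.Sus.prm
  par := Pool.Agent.Helper5.Sus.par

end Pool.Agent.Helper28.Sus
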