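import Pool.Agent.Helper28.Sus.Goals
import Pool.Agent.Helper81.Tok3.SimS

/-!
# Sustained space: linear space and parameters

Every statement comes with its proof in words.
-/

namespace Pool.Agent.Helper28.Sus

open Pool.Agent.Helper65.LinSpace Pool.Agent.Helper78.Mpc Pool.Agent.Helper28.Ram Finset Filter
open Pool.Agent.Helper28.Long (ZL)
open Pool.Agent.Helper81.Tok3 (gH)

/-! ### Linear space -/

/-- A family of machines on numbers with parameters which are computed in linear space. -/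
structure LSP {α : Type} [Ctx α] (P : α → Prm) (C : α → ℕ) : Prop where
  eA : LS fun z => (P z).eA
  eN : LS fun z => (P z).eN
  eW : LS fun z => (P z).eW
  eK : LS fun z => (P z).eK
  eG : LS fun z => (P z).eG
  eR : LS fun z => (P z).eR
  ini : LS fun z => (P z).ini
  B0 : LS fun z => (P z).B0
  st : LS fun z => (P z).st
  Λ : LS fun z => (P z).Λ
  β : LS fun z => (P z).β
  B : LS fun z => (P z).B
  x : LS fun z => (P z).x
  y : LS fun z => (P z).y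
  S : LS fun z => (P z).S
  Z : LS fun z => (P z).Z
  u : LS fun z => (P z).u
  V : LS fun z => (P z).V
  b : LS fun z => (P z).b
  I : LS fun z => (P z).I
  E : LS fun z => (P z).E
  hC : LS C
  bβ0 : ∀ z, 0 < (P z).β
  bβ : ∀ z, (P z).β ^ (P z).Λ ≤ C z
  bS : ∀ z, 2 ^ ((P z).S + 2) ≤ C z
  bZ : ∀ z, 2 ^ ((P z).Z + 2) ≤ C z
  bV : ∀ z, 2 ^ ((P z).V + 2) ≤ C z
  bu : ∀ z, 2 ^ (P z).u ≤ C z
  bb : ∀ z, 2 ^ (P z).b ≤ C z
  bcz : ∀ z, (P z).bd ^ (P z).E ≤ C z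

/-- LSW. The functions of the machine on numbers are computed in linear space. `fun_prop` knows
`LS.dig`, `LS.capN`, `LS.letN`, `LS.ifz`, `LS.eq01`, `LS.lt01`, `LS.catN`, `LS.sdN`, …; `LS.fnN` (with
`hC`, `bβ0`, `bβ`, `bS` or `bZ`; for the outputs of length `1`: `2 ^ 2 ≤ 2 ^ (S + 2) ≤ C`); powers by
`LS.pow_of_le`; `lk` by `LS.sum_le` with the bound `C z * C z * 2 ^ (Z + 1)` or so, the second exponent
being at most `Z + 1`; `cz` by `bcz`; compare `lsm_machH` in `Few/Mach.lean`. -/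
def LSW_stmt : Prop := ∀ (α : Type) [Ctx α] (P : α → Prm) (C c d Y τ a : α → ℕ), LSP P C →
    LS c → LS d → LS Y → LS τ → LS a →
    LS (fun z : α × ℕ => (P z.1).wA (τ z.1) (a z.1) z.2) ∧
    LS (fun z : α × ℕ × ℕ => (P z.1).wN (τ z.1) (Y z.1) (d z.1) (a z.1) z.2.1 z.2.2) ∧
    LS (fun z : α × ℕ => (P z.1).wQ z.2) ∧
    LS (fun z : α × ℕ × ℕ × ℕ => (P z.1).wW z.2.1 z.2.2.1 z.2.2.2) ∧
    LS (fun z => (P z).w0 (c z)) ∧
    LS (fun z : α × ℕ => (P z.1).cm (c z.1) z.2) ∧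
    LS (fun z => (P z).cz)

/-- LSE. The edges are computed in linear space. `LS.sum_le` three times; `bad ≤ 1`, `eq01 ≤ 1`. The
functions `cq`, `cl`, `ro` as in LSW. -/
def LSE_stmt : Prop := ∀ (α : Type) [Ctx α] (P : α → Prm) (C : α → ℕ), LSP P C →
    ∀ F : α → ℕ → ℕ → ℕ → ℕ → ℕ → ℕ,
    LS (fun z : α × ℕ × ℕ × ℕ × ℕ × ℕ => F z.1 z.2.1 z.2.2.1 z.2.2.2.1 z.2.2.2.2.1
      z.2.2.2.2.2) →
    LS (fun z : α × ℕ × ℕ => edge (P z.1) (F z.1) z.2.1 z.2.2)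

/-! ### The parameters

The bounds `S`, `Z`, `h`, `k`, `z` are the digits `0, …, 4` of `T`, in base `n + 2`. -/

/-- `1` if the bounds are admissible. -/
def gd (n S Z h k z : ℕ) : ℕ :=
  le01 (S + h + 5 * ll n + 1) (gH n h) * (le01 ((S + h + 5 * ll n + 2) * h) (gH n h) *
    (le01 (Z + 1) (gH n h * gH n h) * (le01 Z (ZL n) * le01 ((k + 1) * (S + 3 + 3 * z)) (n + 1))))

/-- `1` if the bounds coded by `T` are admissible. -/
def gT (n T : ℕ) : ℕ :=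
  gd n (dig (n + 2) T 0) (dig (n + 2) T 1) (dig (n + 2) T 2) (dig (n + 2) T 3) (dig (n + 2) T 4)

/-- The code of a machine. -/
def cdeN (e : ℕ) : Cde where
  eA := dig (Nat.unpair e).1 (Nat.unpair e).2 0
  eN := dig (Nat.unpair e).1 (Nat.unpair e).2 1
  eW := dig (Nat.unpair e).1 (Nat.unpair e).2 2
  eK := dig (Nat.unpair e).1 (Nat.unpair e).2 3
  eG := dig (Nat.unpair e).1 (Nat.unpair e).2 4
  eR := dig (Nat.unpair e).1 (Nat.unpair e).2 5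
  ini := dig (Nat.unpair e).1 (Nat.unpair e).2 6
  B0 := dig (Nat.unpair e).1 (Nat.unpair e).2 7
  st := dig (Nat.unpair e).1 (Nat.unpair e).2 8

/-- The parameters. -/
def prm (c e x y T : ℕ) : Prm where
  toCde := cdeN e
  Λ := LW (Nat.log 2 x)
  β := 2 ^ (2 * ll (Nat.log 2 x))
  B := CR x
  x := x
  y := y
  S := gT (Nat.log 2 x) T * dig (Nat.log 2 x + 2) T 0
  Z := gT (Nat.log 2 x) T * dig (Nat.log 2 x + 2) T 1
  u := c * Nat.log 2 x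
  V := gT (Nat.log 2 x) T * (dig (Nat.log 2 x + 2) T 0 + dig (Nat.log 2 x + 2) T 2 +
    5 * ll (Nat.log 2 x))
  b := gT (Nat.log 2 x) T * (dig (Nat.log 2 x + 2) T 0 + dig (Nat.log 2 x + 2) T 2) +
    ll (Nat.log 2 x)
  I := 2 ^ ll (Nat.log 2 x)
  E := gT (Nat.log 2 x) T * dig (Nat.log 2 x + 2) T 4 /
    (gT (Nat.log 2 x) T * (dig (Nat.log 2 x + 2) T 0 + dig (Nat.log 2 x + 2) T 2) +
      ll (Nat.log 2 x))

/-- The bound for the numbers. -/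
def CS (c x : ℕ) : ℕ := (x + 2) ^ (8000 + c)

/-- PRM. The parameters are computed in linear space, and admissible. `n = log₂ x`. If `gT n T = 0`
then `S = Z = V = E = 0`. Otherwise `gT n T = 1` and the five inequalities of `gd` hold, so `S`, `V`,
`h` are at most `gH n h ≤ gR n` (as `Few.gH_le`; `gR_le`), `Z ≤ ZL n ≤ n` (`ZL_le`). In both cases
`(k + 1) * (S + 3 + 3 * z) ≤ n + 3` for the reduced `k`, `z`. `2 ^ t ≤ CR x` for `t ≤ 24 * (n + 1)`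
(`Long.pow_le_CR`), `CR x ≤ CS c x`; `β ^ Λ ≤ CM x ≤ CR x` (`beta_pow_le`, `CM_le_CR`); `2 ^ (c n) ≤
(x + 2) ^ c`. `bd = 2 ^ (S + 1 + ll n + b)` and `S + 1 + ll n + b ≤ 3 * b`, `E * b ≤ z`, so
`bd ^ E ≤ 2 ^ (3 * z)` and `cz + 2 ≤ 4 + 2 ^ (S + 1 + 3 * z) ≤ 2 ^ (S + 3 + 3 * z)`. -/
def PRM_stmt : Prop :=
  (∀ (α : Type) [Ctx α] (c : ℕ) (e x y T : α → ℕ), LS e → LS x → LS y → LS T →
    LSP (fun z => prm c (e z) (x z) (y z) (T z)) (fun z => CS c (x z)) ∧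
    LS (fun z => gT (Nat.log 2 (x z)) (T z)) ∧ LS (fun z => gH (Nat.log 2 (x z))
      (gT (Nat.log 2 (x z)) (T z) * dig (Nat.log 2 (x z) + 2) (T z) 2))) ∧
  (∀ c e x y T : ℕ, ((prm c e x y T).cz + 2) ^
    (4 * (gT (Nat.log 2 x) T * dig (Nat.log 2 x + 2) T 3 + 1)) ≤ CS c x) ∧
  (∀ c e x y T : ℕ, (prm c e x y T).V + 1 ≤
      gH (Nat.log 2 x) (gT (Nat.log 2 x) T * dig (Nat.log 2 x + 2) T 2) ∧
    ((prm c e x y T).V + 2) * (gT (Nat.log 2 x) T * dig (Nat.log 2 x + 2) T 2) ≤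
      gH (Nat.log 2 x) (gT (Nat.log 2 x) T * dig (Nat.log 2 x + 2) T 2) ∧
    (prm c e x y T).Z + 1 ≤
      gH (Nat.log 2 x) (gT (Nat.log 2 x) T * dig (Nat.log 2 x + 2) T 2) *
      gH (Nat.log 2 x) (gT (Nat.log 2 x) T * dig (Nat.log 2 x + 2) T 2) ∧
    (prm c e x y T).S ≤ (prm c e x y T).V ∧
    (prm c e x y T).S < gR (Nat.log 2 x) ∧ (prm c e x y T).Z ≤ ZL (Nat.log 2 x))

/-- PAR. The bounds of the theorem give admissible parameters. With `l = ll n`, `L = h + l`,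
`g = gH n h`: `n + 1 ≤ g * g * L` (as `Few.lt_gH_sq`; `Tok2.gH` and `Tok3.gH` have the same definition), `v = √(n + 1) ≤ g √L`. The second bound gives
`(s + L) (h + 1) √L ≤ |C| g`, so `100 (s + L) (h + 1) ≤ g` for large `n`; the first one gives
`x (s + L) √L ≤ |C| g ^ 3`, so `100 x (s + L) ≤ g ^ 3`; the third one `100 a ≤ g * g` and `a ≤ ZL n`
(`Long.le_ZL`); the last one `100 (k + 1) (z + s + L) ≤ n + 1`. `x + 1 ≤ 2 ^ (2 l)` and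
`c n + 1 ≤ 2 ^ (2 l)` since `n < 2 ^ l` (`lt_two_pow_ll`). With `V = s + h + 5 l`, `V + 1 ≤ 6 (s + L)`:
`g / (V + 1) ≥ g / (12 (s + L))`, so `g * g * (g / (V + 1)) ≥ 100 x (s + L) / (12 (s + L)) ≥ 8 x`, and it is
at least `g * g ≥ 3` for large `n`. Compare `ev_few` in `Few/Par.lean`. -/
def PAR_stmt : Prop := ∀ (C : ℝ) (c : ℕ), ∀ᶠ n : ℕ in atTop, ∀ s a x h z k : ℕ,
    (x : ℝ) * ((s : ℝ) + ((h : ℝ) + ((Nat.log 2 n : ℝ) + 1))) *
        ((h : ℝ) + ((Nat.log 2 n : ℝ) + 1)) ^ 2 ≤ C * ((n : ℝ) + 1) ^ ((3 : ℝ) / 2) →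
    ((s : ℝ) + ((h : ℝ) + ((Nat.log 2 n : ℝ) + 1))) * ((h : ℝ) + 1) *
        ((h : ℝ) + ((Nat.log 2 n : ℝ) + 1)) ≤ C * ((n : ℝ) + 1) ^ ((1 : ℝ) / 2) →
    (a : ℝ) * ((h : ℝ) + ((Nat.log 2 n : ℝ) + 1)) ^ 2 ≤ C * ((n : ℝ) + 1) →
    ((k : ℝ) + 1) * ((z : ℝ) + s + ((h : ℝ) + ((Nat.log 2 n : ℝ) + 1))) *
        ((h : ℝ) + ((Nat.log 2 n : ℝ) + 1)) ≤ C * ((n : ℝ) + 1) →
    gd n s a h k z = 1 ∧ s < n + 2 ∧ a < n + 2 ∧ h < n + 2 ∧ k < n + 2 ∧ z < n + 2 ∧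
    2 + 2 ^ (s + 1) * ((c * n + 1) * (2 ^ h * (x + 1) + 1)) ≤ 2 ^ (s + h + 5 * ll n + 1) ∧
    2 ^ h * (x + 1) < 2 ^ (s + h + 5 * ll n) ∧
    2 * (x + 1) + 1 ≤ gH n h * (gH n h * (gH n h / (s + h + 5 * ll n + 1)))

end Pool.Agent.Helper28.Sus
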