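import Pool.Agent.Helper28.Sus.Defs
import Pool.Agent.Helper28.Sus.Sav
import Pool.Agent.Helper28.Sus.Macro
import Pool.Agent.Helper28.Ram.Mach

/-!
# The machine on numbers for a part of a computation

An event is `0` (failure), `1` (the final check was successful), or codes a state `q`, the number `p`
of the guessed letters and the number `t` of the steps since the start of the part. The content `0`
means that the content is not known.
-/

namespace Pool.Agent.Helper28.Sus

open Pool.Agent.Helper65.LinSpace Pool.Agent.Helper78.Mpc Pool.Agent.Helper28.Ram Finset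

/-- The codes of the functions of a machine. -/
structure Cde where
  eA : ℕ
  eN : ℕ
  eW : ℕ
  eK : ℕ
  eG : ℕ
  eR : ℕ
  ini : ℕ
  B0 : ℕ
  st : ℕ

/-- The codes of the functions of a machine, the input, and the bounds. -/
structure Prm extends Cde where
  Λ : ℕ
  β : ℕ
  B : ℕ
  x : ℕ
  y : ℕ
  /-- the length of states and names -/
  S : ℕ
  /-- the length of contents -/
  Z : ℕ
  /-- the number of guessed letters -/
  u : ℕ
  /-- events are smaller than `2 ^ (V + 1)` -/
  V : ℕ
  /-- the length of the pieces of contents -/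
  b : ℕ
  /-- the number of positions of pieces -/
  I : ℕ
  /-- the number of pieces -/
  E : ℕ

namespace Prm

variable (P : Prm)

/-- The name of the register which is read in the state `q`. -/
def fA (q : ℕ) : ℕ := fnN P.eA P.S P.Λ P.β P.B q

/-- `1` if a letter is guessed in the state `q`. -/
def fK (q : ℕ) : ℕ := fnN P.eK 1 P.Λ P.β P.B q % 2

/-- `1` if the state `q` is a message. -/
def fG (q : ℕ) : ℕ := fnN P.eG 1 P.Λ P.β P.B q % 2

/-- `1` if the message `q` resets the register `x`. -/
def fR (q x : ℕ) : ℕ := fnN P.eR 1 P.Λ P.β P.B (catN (sdN q) (sdN x)) % 2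

/-- The next state after `q`, the letter `b` and the content `v`. -/
def fN (q b v : ℕ) : ℕ :=
  ifz v 0 (fnN P.eN P.S P.Λ P.β P.B (catN (sdN q) (2 * v + P.fK q * b)))

/-- The new content of the register `x` after the message `q`, `c` being the old content. -/
def fW (q x c : ℕ) : ℕ :=
  fnN P.eW P.Z P.Λ P.β P.B (catN (sdN q) (catN (sdN x) (ifz (P.fR q x) c 1)))

/-- `1` if `x` is the name of a read-only register. -/
def ro (x : ℕ) : ℕ := lt01 1 x * (1 - x % 2)

/-- The index of the letters in the read-only register `x`. -/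
def ix (x : ℕ) : ℕ := x / 2 - 2 ^ Nat.log 2 (x / 2)

/-- The event with the state `q` after `t` steps and `p` guessed letters. -/
def enc (q p t : ℕ) : ℕ := 2 + (q + 2 ^ (P.S + 1) * (p + (P.u + 1) * t))

/-- The state of the event `Q`. -/
def dq (Q : ℕ) : ℕ := (Q - 2) % 2 ^ (P.S + 1)

/-- The number of guessed letters before the event `Q`. -/
def dp (Q : ℕ) : ℕ := (Q - 2) / 2 ^ (P.S + 1) % (P.u + 1)

/-- The number of steps before the event `Q`. -/
def dt (Q : ℕ) : ℕ := (Q - 2) / 2 ^ (P.S + 1) / (P.u + 1)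

/-! ### Memories -/

/-- The number of possible pieces. -/
def bd : ℕ := 2 ^ (P.S + 1) * (P.I * 2 ^ P.b)

/-- The piece number `e` of the memory `D`. -/
def en (D e : ℕ) : ℕ := dig P.bd D e

/-- The content of the register `x` in the memory `D` (the sum of its pieces). -/
def lk (D x : ℕ) : ℕ := ∑ e ∈ range P.E, eq01 (P.en D e % 2 ^ (P.S + 1)) x *
  (P.en D e / 2 ^ (P.S + 1) / P.I * 2 ^ min (P.b * (P.en D e / 2 ^ (P.S + 1) % P.I)) (P.Z + 1))

/-- The number of configurations. -/
def cz : ℕ := 2 + 2 ^ (P.S + 1) * P.bd ^ P.E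

/-- The state of the configuration `c`. -/
def cq (c : ℕ) : ℕ := ifz (eq01 c 1) ((c - 2) % 2 ^ (P.S + 1)) (capN P.S P.st)

/-- The content of the register `x` (not read-only) in the configuration `c`. -/
def cl (c x : ℕ) : ℕ := ifz (eq01 c 1) (capN P.Z (P.lk ((c - 2) / 2 ^ (P.S + 1)) x)) 1

/-- The content of the register `x` in the configuration `c`. -/
def cm (c x : ℕ) : ℕ := capN P.Z (ifz (ro x) (P.cl c x)
  (dig P.B0 P.ini (3 * letN P.x (ix x) + letN P.y (ix x))))

/-! ### The machine

It starts with the configuration `c` and makes `τ` steps; the bits of `Y` are the guessed letters.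
Then it compares the state, and the content of the register `a` if `a` is not `0`, with those of the
configuration `d`; if `d = 0` it checks if the state is accepting. -/

/-- The register which is read. -/
def wA (τ a Q : ℕ) : ℕ :=
  capN P.V (ifz (lt01 1 Q) 0 (ifz (eq01 (P.dt Q) τ) (P.fA (P.dq Q)) a))

/-- The result of the final check. -/
def wF (d a Q v : ℕ) : ℕ :=
  ifz d (accN (P.dq Q)) (eq01 (P.dq Q) (P.cq d) * ifz a 1 (eq01 v (P.cl d a)))

/-- The next event. -/
def wN (τ Y d a Q v : ℕ) : ℕ :=
  capN P.V (ifz (lt01 1 Q) Q (ifz (eq01 (P.dt Q) τ)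
    (ifz (P.fA (P.dq Q) * P.fN (P.dq Q) (dig 2 Y (P.dp Q)) v) 0
      (ifz (P.fK (P.dq Q) * eq01 (P.dp Q) P.u)
        (P.enc (P.fN (P.dq Q) (dig 2 Y (P.dp Q)) v) (P.dp Q + P.fK (P.dq Q)) (P.dt Q + 1)) 0))
    (P.wF d a Q v)))

/-- `1` if the event `f` is silent. -/
def wQ (f : ℕ) : ℕ := ifz (lt01 1 f) 1 (1 - P.fG (P.dq f))

/-- The new content of the register `x` after the event `f`. -/
def wW (x f c : ℕ) : ℕ :=
  capN P.Z (ifz (lt01 1 f) c (ifz (P.fG (P.dq f) * (1 - ro x)) c (P.fW (P.dq f) x c)))

/-- The first event. -/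
def w0 (c : ℕ) : ℕ := capN P.V (P.enc (P.cq c) 0 0)

/-- The configuration after `t` steps. -/
def wf (τ Y c d a t : ℕ) : ℕ × (ℕ → ℕ) :=
  gf (P.wA τ a) (P.wN τ Y d a) P.wW (P.w0 c) (P.cm c) t

end Prm

end Pool.Agent.Helper28.Sus
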